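import Pool.Agent.H49.CE.Defs

/-!
# MP_70000a_co (critical exponents), targets.  Mathematics: team-store `H49_CE_blueprint.md`.
`q` is `Fintype.card F` everywhere.
-/

set_option autoImplicit false

noncomputable section

namespace CE

open scoped Classical

/-! ## Part A -/

/-- Clique lifts from `V / F g`. -/
def T_LC : Prop :=
  ∀ (F : Type) [Field F] [Fintype F] (V : Type) [AddCommGroup V] [Module F V] [Finite V]
    (C D : Finset V) (g : V) (r : ℕ), IsCone F D → g ∈ D →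
    Clique F r (Cq F g C) (Dq F g D) → Clique F r C D

/-- Pyr lifts from `V / F g`. -/
def T_LP : Prop :=
  ∀ (F : Type) [Field F] [Fintype F] (V : Type) [AddCommGroup V] [Module F V] [Finite V]
    (C D : Finset V) (g : V) (a n : ℕ), IsCone F D → g ∈ D →
    Pyr F a n (Cq F g C) (Dq F g D) → Pyr F a n C D

/-- Pyr gains a lift from doubled points. -/
def T_LP2 : Prop :=
  ∀ (F : Type) [Field F] [Fintype F] (V : Type) [AddCommGroup V] [Module F V] [Finite V]
    (C D : Finset V) (g : V) (a n : ℕ), IsCone F D → g ∈ D →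
    Pyr F a n (C2 F g C) (Dq F g D) → Pyr F (a + 1) n C D

/-- Loss of edges under contraction of `g`. -/
def T_LOSS : Prop :=
  ∀ (F : Type) [Field F] [Fintype F] (V : Type) [AddCommGroup V] [Module F V] [Finite V]
    (C D : Finset V) (g : V), IsCone F D → g ∈ D →
    EE C D ≤ EE (Cq F g C) (Dq F g D) + Fintype.card F * (C.card - (Cq F g C).card) +
      Fintype.card F ^ 2 * EE (C2 F g C) (Dq F g D) + Tri F g C D

/-- Elementary counts for one direction. -/
def T_EG : Prop :=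
  ∀ (F : Type) [Field F] [Fintype F] (V : Type) [AddCommGroup V] [Module F V] [Finite V]
    (C : Finset V) (g : V), g ≠ 0 →
    Eg F g C ≤ Fintype.card F * (C.card - (Cq F g C).card) ∧
    (C2 F g C).card ≤ C.card - (Cq F g C).card

/-- The dichotomy (from `T_LOSS`, `T_EG` and a sum over directions). -/
def T_DICH : Prop :=
  ∀ (F : Type) [Field F] [Fintype F] (V : Type) [AddCommGroup V] [Module F V] [Finite V]
    (C D : Finset V) (th : ℕ), IsCone F D → 4 * Fintype.card F ≤ th → C.Nonempty →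
    th * C.card ≤ EE C D →
    (∀ g ∈ D, (∃ x ∈ C, ∃ y ∈ C, x - y = g) →
      EE (Cq F g C) (Dq F g D) < th * (Cq F g C).card) →
    (∃ g ∈ D, (C2 F g C).Nonempty ∧
      th * (C2 F g C).card ≤ 4 * Fintype.card F ^ 2 * EE (C2 F g C) (Dq F g D)) ∨
    (∃ y ∈ C, (nbr C D y).Nonempty ∧
      th * (nbr C D y).card ≤ 2 * Fintype.card F * EE (nbr C D y) D)

/-- Selection of a functional. -/
def T_FUN : Prop :=
  ∀ (F : Type) [Field F] [Fintype F] (V : Type) [AddCommGroup V] [Module F V] [Finite V]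
    (C1 D : Finset V) (th : ℕ), IsCone F D → (0 : V) ∉ C1 → C1.Nonempty →
    (Fintype.card F * th + Fintype.card F) * C1.card ≤ EE C1 D →
    ∃ φ : V →ₗ[F] F, (C1.filter (fun x => φ x = 1)).Nonempty ∧
      th * (C1.filter (fun x => φ x = 1)).card ≤
        EE (C1.filter (fun x => φ x = 1)) (D.filter (fun x => φ x = 0))

/-- The neighbourhood of a point. -/
def T_HUB : Prop :=
  ∀ (F : Type) [Field F] [Fintype F] (V : Type) [AddCommGroup V] [Module F V] [Finite V]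
    (C D : Finset V) (y : V) (φ : V →ₗ[F] F), IsCone F D → y ∈ C →
    (∀ r : ℕ, Clique F r (((nbr C D y).image (fun x => x - y)).filter (fun x => φ x = 1))
        (D.filter (fun x => φ x = 0)) → Clique F (r + 1) C D) ∧
    (∀ a n : ℕ, Pyr F a n (((nbr C D y).image (fun x => x - y)).filter (fun x => φ x = 1))
        (D.filter (fun x => φ x = 0)) → Pyr F a n C D)

/-- The pairs theorem (assembly of the above). -/
def T_PAIRS : Prop :=
  ∀ (F : Type) [Field F] [Fintype F] (a r n : ℕ), 1 ≤ r → Fintype.card F ≤ n →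
    ∀ (V : Type) [AddCommGroup V] [Module F V] [Finite V]
    (C D : Finset V), IsCone F D → C.Nonempty →
    (4 * Fintype.card F ^ 2) ^ (a + r) * n * C.card ≤ EE C D →
    Clique F r C D ∨ Pyr F a n C D

/-- `KM` lifts from `V / F g`. -/
def T_KML : Prop :=
  ∀ (F : Type) [Field F] [Fintype F] (V : Type) [AddCommGroup V] [Module F V] [Finite V]
    (D : Finset V) (g : V) (m : ℕ), IsCone F D → g ∈ D → KM F m (Dq F g D) → KM F m D

/-- The initial step (uses `T_KML`). -/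
def T_INIT : Prop :=
  ∀ (F : Type) [Field F] [Fintype F] (m lam : ℕ), 1 ≤ lam →
    (∀ (V : Type) [AddCommGroup V] [Module F V] [Finite V] (D : Finset V) (φ : V →ₗ[F] F),
      IsCone F D → (D.filter (fun x => φ x = 1)).Nonempty →
      (lam - 1) * (D.filter (fun x => φ x = 1)).card ≤
        Fintype.card F * EE (D.filter (fun x => φ x = 1)) (D.filter (fun x => φ x = 0)) →
      KM F m D) →
    ∀ (V : Type) [AddCommGroup V] [Module F V] [Finite V] (D : Finset V), IsCone F D →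
      lam * (Fintype.card F - 1) * Module.finrank F V < D.card → KM F m D

/-- Final step, clique case. -/
def T_FC : Prop :=
  ∀ (F : Type) [Field F] [Fintype F] (V : Type) [AddCommGroup V] [Module F V] [Finite V]
    (D : Finset V) (φ : V →ₗ[F] F) (r : ℕ), IsCone F D →
    Clique F r (D.filter (fun x => φ x = 1)) (D.filter (fun x => φ x = 0)) → KM F (r + 1) D

/-- Final step, pyramid case. -/
def T_FP : Prop :=
  ∀ (F : Type) [Field F] [Fintype F] (V : Type) [AddCommGroup V] [Module F V] [Finite V]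
    (D : Finset V) (φ : V →ₗ[F] F) (a : ℕ), IsCone F D →
    Pyr F a (Fintype.card F ^ (a ^ 2 + a.choose 2 + 1))
      (D.filter (fun x => φ x = 1)) (D.filter (fun x => φ x = 0)) → KM F (a + 1) D

/-- `KM` passes from a subspace to the whole space. -/
def T_TR : Prop :=
  ∀ (F : Type) [Field F] [Fintype F] (V : Type) [AddCommGroup V] [Module F V] [Finite V]
    (U : Submodule F V) (D : Finset V) (D' : Finset U) (m : ℕ),
    (∀ u ∈ D', (u : V) ∈ D) → KM F m D' → KM F m D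

/-- Cones over simple sets. -/
def T_CONE : Prop :=
  ∀ (F : Type) [Field F] [Fintype F] (V : Type) [AddCommGroup V] [Module F V] (S : Finset V),
    (∀ v ∈ S, v ≠ 0) → (∀ v ∈ S, ∀ w ∈ S, ∀ c : F, v = c • w → v = w) →
    IsCone F (cone F S) ∧ (cone F S).card = (Fintype.card F - 1) * S.card

/-- The minor in the sense of the frozen statement. -/
def FrozenMinor (m : ℕ) (F : Type) [Field F] (n : ℕ) (S : Finset (Fin n → F)) : Prop :=
  ∃ (C : Set (Fin n → F)) (e : {p : Fin m × Fin m // p.1 < p.2} → (Fin n → F)),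
    C ⊆ (↑S : Set (Fin n → F)) ∧ Function.Injective e ∧ (∀ a, e a ∈ S) ∧
    ∀ A : Finset {p : Fin m × Fin m // p.1 < p.2},
      Module.finrank F (Submodule.span F (C ∪ e '' (↑A : Set {p : Fin m × Fin m // p.1 < p.2}))) =
        Module.finrank F (Submodule.span F C) +
        Module.finrank F (Submodule.span F
          ((fun a : {p : Fin m × Fin m // p.1 < p.2} =>
              ((Pi.single a.1.1 (1 : F) : Fin m → F) - (Pi.single a.1.2 (1 : F) : Fin m → F))) ''
            (↑A : Set {p : Fin m × Fin m // p.1 < p.2})))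

/-- `KM` gives the frozen minor. -/
def T_FM : Prop :=
  ∀ (m : ℕ) (F : Type) [Field F] [Fintype F] (n : ℕ) (S : Finset (Fin n → F)),
    (∀ v ∈ S, v ≠ 0) → (∀ v ∈ S, ∀ w ∈ S, ∀ c : F, v = c • w → v = w) →
    KM F m (cone F S) → FrozenMinor m F n S

/-- Theorem A. -/
def T_A : Prop :=
  ∀ m : ℕ, 1 ≤ m → ∃ c : ℕ, ∀ (F : Type) [Field F] [Fintype F] (n : ℕ) (S : Finset (Fin n → F)),
    (∀ v ∈ S, v ≠ 0) → (∀ v ∈ S, ∀ w ∈ S, ∀ c : F, v = c • w → v = w) →
    ¬ FrozenMinor m F n S →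
    ∀ U : Submodule F (Fin n → F),
      (S.filter (fun v => v ∈ U)).card ≤ Fintype.card F ^ c * Module.finrank F U

/-! ## Part B -/

/-- Basic facts on `Z_W`. -/
def T_Z1 : Prop :=
  ∀ (F : Type) [Field F] [Fintype F] (V : Type) [AddCommGroup V] [Module F V] [Finite V]
    (ι : Type) (v : ι → V) (N : Finset ι) (x : ℝ), 0 ≤ x →
    (∀ W W' : Submodule F V, W ≤ W' → ZZ F v N x W' ≤ ZZ F v N x W) ∧
    (∀ W : Submodule F V, 1 ≤ ZZ F v N x W) ∧
    (∀ W : Submodule F V, ZZ F v N x W ≤ Real.exp (x * N.card)) ∧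
    ZZ F v N x ⊤ = 1

/-- The independent sets containing `B`. -/
def T_Z2 : Prop :=
  ∀ (F : Type) [Field F] [Fintype F] (V : Type) [AddCommGroup V] [Module F V] [Finite V]
    (ι : Type) (v : ι → V) (N : Finset ι) (x : ℝ) (W : Submodule F V) (B : Finset ι),
    B ⊆ N → Ind F v W B →
    ∑ J ∈ N.powerset.filter (fun J => Ind F v W J ∧ B ⊆ J), x ^ J.card =
      x ^ B.card * ZZ F v N x (W ⊔ sp F v B)

/-- Product inequality. -/
def T_Z3 : Prop :=
  ∀ (F : Type) [Field F] [Fintype F] (V : Type) [AddCommGroup V] [Module F V] [Finite V]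
    (ι : Type) (v : ι → V) (N : Finset ι) (x : ℝ) (W X : Submodule F V), 0 ≤ x → W ≤ X →
    ZZ F v N x X * ZZ F v (N.filter (fun i => v i ∈ X)) x W ≤ ZZ F v N x W

/-- Density above `W` from a bound on `Z` (uses `T_Z3`). -/
def T_DEN : Prop :=
  ∀ (F : Type) [Field F] [Fintype F] (V : Type) [AddCommGroup V] [Module F V] [Finite V]
    (ι : Type) (v : ι → V) (N : Finset ι) (x c tau : ℝ) (W : Submodule F V),
    0 < x → 0 ≤ c → 0 < tau → Real.exp c ≤ 1 + tau * x →
    (∀ Y : Submodule F V, W ≤ Y →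
      ZZ F v N x W ≤
        Real.exp (c * ((Module.finrank F Y : ℝ) - (Module.finrank F W : ℝ))) * ZZ F v N x Y) →
    Dens F v N tau W

/-- The count of coloop free sets (uses `T_Z1`, `T_Z2`). -/
def T_CNT : Prop :=
  ∀ (F : Type) [Field F] [Fintype F] (V : Type) [AddCommGroup V] [Module F V] [Finite V]
    (ι : Type) (v : ι → V) (N : Finset ι) (x d : ℝ), 0 < x → x ≤ 1 → 0 ≤ d →
    HF F v N x d →
    ∀ (W : Submodule F V) (j m : ℕ),
      ((BB F v N W j m).card : ℝ) * x ^ (j + m) ≤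
        4 * Real.exp (d * ((Module.finrank F W : ℝ) + j))

/-- Existence of coloop free sets. -/
def T_EX : Prop :=
  ∀ (F : Type) [Field F] [Fintype F] (V : Type) [AddCommGroup V] [Module F V] [Finite V]
    (ι : Type) (v : ι → V) (N : Finset ι) (tau : ℝ) (W : Submodule F V) (R : Finset ι),
    0 < tau → Dens F v N tau W → R ⊆ N → (∀ i ∈ R, v i ∉ W) →
    ∃ (B : Finset ι) (j m1 : ℕ), B ⊆ R ∧ B ∈ BB F v N W j m1 ∧ m1 ≤ j ∧
      (Module.finrank F (W ⊓ sp F v R : Submodule F V) : ℝ) ≤ tau * j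

/-- Kempe changes. -/
def T_KEMPE : Prop :=
  ∀ (F : Type) [Field F] [Fintype F] (V : Type) [AddCommGroup V] [Module F V] [Finite V]
    (E : Type) [AddCommGroup E] [Module F E] [Finite E]
    (ι : Type) (v : ι → V) (T : Finset ι) (f : ι → E) (W : Submodule F V) (z : V →ₗ[F] E)
    (Lam : Submodule F E) (u : ℕ),
    {y | y ∈ YY F v T f W z ∧
        Module.finrank F (W ⊓ sp F v (TL F v T f Lam y) : Submodule F V) ≤ u}.ncard *
      Nat.card Lam ^ (Module.finrank F W - u) ≤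
    {y | y ∈ Av F v T f ∧ ∀ w ∈ W, y w - z w ∈ Lam}.ncard

/-- Counting extensions to `W + span B`. -/
def T_EXT : Prop :=
  ∀ (F : Type) [Field F] [Fintype F] (V : Type) [AddCommGroup V] [Module F V] [Finite V]
    (E : Type) [AddCommGroup E] [Module F E] [Finite E]
    (ι : Type) (v : ι → V) (T : Finset ι) (f : ι → E) (W : Submodule F V) (z : V →ₗ[F] E)
    (Lam : Submodule F E) (B : Finset ι) (M : ℝ), B ⊆ T → 0 ≤ M →
    (∀ z' : V →ₗ[F] E, ((YY F v (T \ B) f (W ⊔ sp F v B) z').ncard : ℝ) ≤ M) →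
    ({y | y ∈ YY F v T f W z ∧ B ⊆ TL F v T f Lam y}.ncard : ℝ) ≤
      (Nat.card Lam : ℝ) ^
        (Module.finrank F (W ⊔ sp F v B : Submodule F V) - Module.finrank F W) * M

/-- Removing few constraints (and positivity), from (SP) for proper subsets. -/
def T_AT : Prop :=
  ∀ (F : Type) [Field F] [Fintype F] (V : Type) [AddCommGroup V] [Module F V] [Finite V]
    (E : Type) [AddCommGroup E] [Module F E] [Finite E]
    (ι : Type) (v : ι → V) (N T : Finset ι) (f : ι → E) (x kap b : ℝ),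
    0 ≤ x → 0 ≤ b → 4 * Real.exp kap ≤ (Nat.card E : ℝ) → T ⊆ N → (∀ i ∈ N, v i ≠ 0) →
    (∀ T' : Finset ι, T' ⊂ T → SP F v N x kap b f T') →
    (0 < (Av F v T f).ncard) ∧
    ∀ B : Finset ι, B ⊆ T →
      ((Av F v (T \ B) f).ncard : ℝ) ≤ (4 / 3) ^ B.card * ((Av F v T f).ncard : ℝ)

/-- Large `D` is rare (assembly of `T_CNT`, `T_EX`, `T_EXT`, `T_AT`). -/
def T_LARGE : Prop :=
  ∀ (F : Type) [Field F] [Fintype F] (V : Type) [AddCommGroup V] [Module F V] [Finite V]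
    (E : Type) [AddCommGroup E] [Module F E] [Finite E]
    (ι : Type) (v : ι → V) (N T : Finset ι) (f : ι → E) (x kap b d tau w0 eta : ℝ) (j0 : ℕ)
    (W : Submodule F V) (z : V →ₗ[F] E) (Lam : Submodule F E),
    0 < x → x ≤ 1 → 0 ≤ b → 0 ≤ d → 0 < tau → 0 ≤ w0 → 1 ≤ j0 → ((j0 : ℝ) - 1) * tau ≤ w0 →
    4 * Real.exp kap ≤ (Nat.card E : ℝ) → T ⊆ N → (∀ i ∈ N, v i ≠ 0) →
    HF F v N x d → Dens F v N tau W →
    (∀ T' : Finset ι, T' ⊂ T → SP F v N x kap b f T') →
    eta = 2 * Real.exp d * Real.exp kap * (Nat.card Lam : ℝ) / (x ^ 2 * (Nat.card E : ℝ)) →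
    4 * eta ≤ 1 →
    (Module.finrank F (sp F v (T.filter (fun i => v i ∈ W ∧ z (v i) - f i ∈ Lam))) : ℝ) ≤ w0 →
    ({y | y ∈ YY F v T f W z ∧ 2 * w0 <
        (Module.finrank F (W ⊓ sp F v (TL F v T f Lam y) : Submodule F V) : ℝ)}.ncard : ℝ) *
      (Nat.card E : ℝ) ^ (Module.finrank F W) ≤
    8 * Real.exp (d * (Module.finrank F W : ℝ)) * (2 * eta) ^ j0 *
      (Real.exp (GG F v N x kap b W) * ((Av F v T f).ncard : ℝ))

/-- Few bad `λ`. -/
def T_BAD : Prop :=
  ∀ (F : Type) [Field F] [Fintype F] (V : Type) [AddCommGroup V] [Module F V] [Finite V]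
    (E : Type) [AddCommGroup E] [Module F E] [Finite E]
    (ι : Type) (v : ι → V) (A : Finset ι) (f : ι → E) (W : Submodule F V) (z : V →ₗ[F] E)
    (L1 L2 : Submodule F E) (m2 : ℕ), (∀ i ∈ A, v i ∈ W) → L1 ⊓ L2 = ⊥ →
    {l : W →ₗ[F] E | (∀ w, l w ∈ L1) ∧ m2 ≤ Module.finrank F
        (sp F v (A.filter (fun i => ∃ h : v i ∈ W, z (v i) + l ⟨v i, h⟩ - f i ∈ L2)))}.ncard ≤
      A.card.choose m2 * Nat.card L1 ^ (Module.finrank F W - m2)

/-- Choice of the graph. -/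
def T_CHOICE : Prop :=
  ∀ (F : Type) [Field F] [Fintype F] (U : Type) [AddCommGroup U] [Module F U] [Finite U]
    (ι : Type) (A : Finset ι) (e : ι → U × U), (∀ i ∈ A, e i ≠ 0) →
    ∃ φ : U →ₗ[F] U, (A.filter (fun i => (e i).2 = φ (e i).1)).card * Nat.card U ≤ A.card

/-- The numerical lemma. -/
def T_NUM : Prop :=
  ∀ (k nA : ℕ) (tau L g a Y : ℝ), 1 ≤ k → 4 ≤ tau → 10 ^ 22 * tau ^ 24 ≤ L →
    0 ≤ a → 0 ≤ Y → (nA : ℝ) ≤ tau * k →
    L ^ ((k : ℝ) / 4) ≤ g * L ^ (2 * k) →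
    (Y - 8 * Real.exp (dd tau * k) *
        (2 * (2 * Real.exp (dd tau) / (xx tau ^ 2 * Real.sqrt L))) ^
          (⌊(k : ℝ) / (128 * tau ^ 2)⌋₊ + 1) * (g * a)) *
      L ^ (k - ⌊(k : ℝ) / (64 * tau)⌋₊) ≤
      a / L ^ (k - ⌊(k : ℝ) / 8⌋₊) +
      L ^ k * (8 * Real.exp (dd tau * k) *
        (2 * (2 * Real.exp (dd tau) / (xx tau ^ 2 * Real.sqrt L))) ^
          (⌊(k : ℝ) / (16 * tau)⌋₊ + 1) * (g * a)) +
      (nA.choose (⌊(k : ℝ) / 16⌋₊ + 1) : ℝ) * L ^ (k - (⌊(k : ℝ) / 16⌋₊ + 1)) * Y →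
    Y ≤ g * a

/-- The inequality (SP) for closed `W` (assembly of `T_KEMPE`, `T_LARGE`, `T_BAD`, `T_CHOICE`, `T_NUM`).
Here `E = U × U`. -/
def T_STEP : Prop :=
  ∀ (F : Type) [Field F] [Fintype F] (V : Type) [AddCommGroup V] [Module F V] [Finite V]
    (U : Type) [AddCommGroup U] [Module F U] [Finite U]
    (ι : Type) (v : ι → V) (N T : Finset ι) (f : ι → U × U) (tau : ℝ) (W : Submodule F V),
    4 ≤ tau → 10 ^ 22 * tau ^ 24 ≤ (Nat.card U : ℝ) → T ⊆ N → (∀ i ∈ N, v i ≠ 0) →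
    HF F v N (xx tau) (dd tau) → Dens F v N tau W → Dens F v N tau ⊥ →
    (∀ T' : Finset ι, T' ⊂ T →
      SP F v N (xx tau) (kk (Nat.card U)) (bb tau (Nat.card U)) f T') →
    ∀ z : V →ₗ[F] U × U,
      ((YY F v T f W z).ncard : ℝ) * (Nat.card (U × U) : ℝ) ^ (Module.finrank F W) ≤
        Real.exp (GG F v N (xx tau) (kk (Nat.card U)) (bb tau (Nat.card U)) W) *
          ((Av F v T f).ncard : ℝ)

/-- The main claim (assembly: closure, `T_DEN`, `T_STEP`, induction on `T`). -/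
def T_MAIN : Prop :=
  ∀ (F : Type) [Field F] [Fintype F] (V : Type) [AddCommGroup V] [Module F V] [Finite V]
    (U : Type) [AddCommGroup U] [Module F U] [Finite U]
    (ι : Type) (v : ι → V) (N : Finset ι) (f : ι → U × U) (tau : ℝ),
    4 ≤ tau → 10 ^ 22 * tau ^ 24 ≤ (Nat.card U : ℝ) → (∀ i ∈ N, v i ≠ 0) →
    HF F v N (xx tau) (dd tau) →
    ∃ y : V →ₗ[F] U × U, ∀ i ∈ N, y (v i) ≠ f i

/-- Theorem B (composition). -/
def T_B : Prop :=
  ∀ (F : Type) [Field F] [Fintype F] (V : Type) [AddCommGroup V] [Module F V] [Finite V]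
    (U : Type) [AddCommGroup U] [Module F U] [Finite U]
    (ι : Type) (v : ι → V) (N : Finset ι) (f : ι → U × U) (tau : ℝ),
    4 ≤ tau → 10 ^ 22 * tau ^ 24 ≤ (Nat.card U : ℝ) → (∀ i ∈ N, v i ≠ 0) →
    (∀ X : Submodule F V, X ≠ ⊥ →
      ((N.filter (fun i => v i ∈ X)).card : ℝ) < tau / 4 * (Module.finrank F X : ℝ)) →
    ∃ y : V →ₗ[F] U × U, ∀ i ∈ N, y (v i) ≠ f i

/-- The frozen statement. -/
def T_FINAL : Prop :=
    ∀ m : ℕ, 1 ≤ m → ∃ ψ : ℕ, ∀ (F : Type) [Field F] [Fintype F] (n : ℕ) (S : Finset (Fin n → F)),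
      (∀ v ∈ S, v ≠ 0) →
      (∀ v ∈ S, ∀ w ∈ S, ∀ c : F, v = c • w → v = w) →
      (¬ FrozenMinor m F n S) →
      ∃ f : (Fin n → F) →ₗ[F] (Fin ψ → F), ∀ v ∈ S, f v ≠ 0

end CE
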