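import Pool.Agent.H49.CE.Targets

/-!
# MP_70000a_co, module B11 : the inequality (SP) for closed `W` (target `T_STEP`).
-/

set_option autoImplicit false

noncomputable section

namespace CE

open scoped Classical

/-! ### Elementary counting -/

theorem B11_ncard_le_sum {α β : Type} [Finite α] (s : Finset β) (Q : Set α) (P : β → Set α)
    (h : ∀ y ∈ Q, ∃ l ∈ s, y ∈ P l) : Q.ncard ≤ ∑ l ∈ s, (P l).ncard := by
  have : Fintype α := Fintype.ofFinite α
  have h1 : Q ⊆ ((s.biUnion (fun l => (P l).toFinset) : Finset α) : Set α) := by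
    intro y hy
    obtain ⟨l, hl, hyl⟩ := h y hy
    simp only [Finset.coe_biUnion, Set.mem_iUnion, Finset.mem_coe, Set.mem_toFinset]
    exact ⟨l, hl, by simpa using hyl⟩
  calc Q.ncard ≤ ((s.biUnion (fun l => (P l).toFinset) : Finset α) : Set α).ncard :=
        Set.ncard_le_ncard h1 (Set.toFinite _)
    _ = (s.biUnion (fun l => (P l).toFinset)).card := Set.ncard_coe_finset _
    _ ≤ ∑ l ∈ s, ((P l).toFinset).card := Finset.card_biUnion_le
    _ = ∑ l ∈ s, (P l).ncard := by
        apply Finset.sum_congr rfl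
        intro l _
        rw [Set.ncard_eq_toFinset_card']

theorem B11_sum_le_ncard {α β : Type} [Finite α] (s : Finset β) (Q : Set α) (P : β → Set α)
    (h1 : ∀ l ∈ s, P l ⊆ Q)
    (h2 : ∀ l ∈ s, ∀ l' ∈ s, ∀ y, y ∈ P l → y ∈ P l' → l = l') :
    ∑ l ∈ s, (P l).ncard ≤ Q.ncard := by
  have : Fintype α := Fintype.ofFinite α
  have h3 : ∑ l ∈ s, (P l).ncard = (s.biUnion (fun l => (P l).toFinset)).card := by
    rw [Finset.card_biUnion]
    · apply Finset.sum_congr rfl
      intro l _
      rw [Set.ncard_eq_toFinset_card']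
    · intro l hl l' hl' hne
      rw [Function.onFun, Finset.disjoint_left]
      intro y hy hy'
      exact hne (h2 l hl l' hl' y (Set.mem_toFinset.mp hy) (Set.mem_toFinset.mp hy'))
  rw [h3, ← Set.ncard_coe_finset]
  apply Set.ncard_le_ncard _ (Set.toFinite _)
  intro y hy
  simp only [Finset.coe_biUnion, Set.mem_iUnion, Finset.mem_coe, Set.mem_toFinset] at hy
  obtain ⟨l, hl, hyl⟩ := hy
  exact h1 l hl (by simpa using hyl)

/-! ### Numerical facts -/

theorem B11_sqrt (L : ℝ) (hL : 0 < L) : Real.exp (kk L) = Real.sqrt L := by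
  rw [kk, Real.sqrt_eq_rpow, Real.rpow_def_of_pos hL]
  congr 1
  ring

theorem B11_num (tau L : ℝ) (h4 : 4 ≤ tau) (hL : 10 ^ 22 * tau ^ 24 ≤ L) :
    0 < dd tau ∧ dd tau ≤ 1 / 2048 ∧ Real.exp (dd tau) ≤ 2 ∧ 0 < xx tau ∧ xx tau ≤ 1 ∧
    128 * tau ^ 2 ≤ L ∧ 4 * Real.exp (kk L) ≤ L * L ∧ 0 ≤ bb tau L ∧
    4 * (2 * Real.exp (dd tau) / (xx tau ^ 2 * Real.sqrt L)) ≤ 1 := by
  have ht : 0 < tau := by linarith
  have hL1 : (1 : ℝ) ≤ L := by
    have : (1 : ℝ) ≤ tau ^ 24 := one_le_pow₀ (by linarith)
    nlinarith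
  have hL0 : 0 < L := by linarith
  have hd0 : 0 < dd tau := by unfold dd; positivity
  have hd1 : dd tau ≤ 1 / 2048 := by
    unfold dd
    apply div_le_div_of_nonneg_left (by norm_num) (by norm_num)
    nlinarith
  have hexp : Real.exp (dd tau) ≤ 2 := by
    have h1 : Real.exp (dd tau) ≤ Real.exp (1 / 2) := Real.exp_le_exp.mpr (by linarith)
    have h2 : Real.exp (1 / 2) ≤ 2 := by
      have h3 : Real.exp (1 / 2) ^ 2 ≤ 2 ^ 2 := by
        rw [← Real.exp_nat_mul]
        have := Real.exp_one_lt_d9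
        norm_num
        linarith
      exact le_of_sq_le_sq h3 (by norm_num)
    linarith
  have hx0 : 0 < xx tau := by unfold xx; positivity
  have ht3 : (1 : ℝ) ≤ tau ^ 3 := one_le_pow₀ (by linarith)
  have hx1 : xx tau ≤ 1 := by
    unfold xx
    rw [div_le_one (by positivity)]
    linarith
  have ht22 : (1 : ℝ) ≤ tau ^ 22 := one_le_pow₀ (by linarith)
  have h128 : 128 * tau ^ 2 ≤ L := by
    have : tau ^ 24 = tau ^ 22 * tau ^ 2 := by ring
    have h2 : tau ^ 2 ≤ tau ^ 22 * tau ^ 2 := le_mul_of_one_le_left (by positivity) ht22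
    rw [this] at hL
    nlinarith [sq_nonneg tau]
  have hL16 : 16 ≤ L := by nlinarith
  have hsq : Real.sqrt L ≤ L := by
    rw [Real.sqrt_le_left (by linarith)]
    nlinarith
  have hk : 4 * Real.exp (kk L) ≤ L * L := by
    rw [B11_sqrt L hL0]
    nlinarith
  have hlog : 0 ≤ Real.log L := Real.log_nonneg hL1
  have hb : 0 ≤ bb tau L := by
    unfold bb kk
    positivity
  refine ⟨hd0, hd1, hexp, hx0, hx1, h128, hk, hb, ?_⟩
  have hs : 10 ^ 11 * tau ^ 12 ≤ Real.sqrt L := by
    apply Real.le_sqrt_of_sq_le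
    calc (10 ^ 11 * tau ^ 12) ^ 2 = 10 ^ 22 * tau ^ 24 := by ring
      _ ≤ L := hL
  have hspos : 0 < Real.sqrt L := Real.sqrt_pos.mpr hL0
  have hxs : xx tau ^ 2 * Real.sqrt L ≥ 16 := by
    have h1 : xx tau ^ 2 = 1 / (1024 * tau ^ 6) := by
      unfold xx
      rw [div_pow]
      ring
    rw [h1]
    have h2 : 1 / (1024 * tau ^ 6) * Real.sqrt L ≥ 1 / (1024 * tau ^ 6) * (10 ^ 11 * tau ^ 12) := by
      apply mul_le_mul_of_nonneg_left hs
      positivity
    have h3 : 1 / (1024 * tau ^ 6) * (10 ^ 11 * tau ^ 12) = 10 ^ 11 / 1024 * tau ^ 6 := by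
      field_simp
    have h4 : (1 : ℝ) ≤ tau ^ 6 := one_le_pow₀ (by linarith)
    rw [h3] at h2
    nlinarith
  rw [← mul_div_assoc, div_le_one (by linarith)]
  nlinarith

theorem B11_eta (d x L : ℝ) (hx : 0 < x) (hL : 0 < L) :
    2 * Real.exp d / (x ^ 2 * Real.sqrt L) =
      2 * Real.exp d * Real.exp (kk L) * L / (x ^ 2 * (L * L)) := by
  rw [B11_sqrt L hL]
  have hs : 0 < Real.sqrt L := Real.sqrt_pos.mpr hL
  have h1 : Real.sqrt L * Real.sqrt L = L := Real.mul_self_sqrt hL.le
  rw [div_eq_div_iff (by positivity) (by positivity)]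
  calc 2 * Real.exp d * (x ^ 2 * (L * L)) = 2 * Real.exp d * x ^ 2 * L * L := by ring
    _ = 2 * Real.exp d * x ^ 2 * L * (Real.sqrt L * Real.sqrt L) := by rw [h1]
    _ = 2 * Real.exp d * Real.sqrt L * L * (x ^ 2 * Real.sqrt L) := by ring

/-! ### Cardinalities of the two transversal subspaces -/

theorem B11_card_graph {F : Type} [Field F] {U : Type} [AddCommGroup U] [Module F U]
    (φ : U →ₗ[F] U) : Nat.card (LinearMap.graph φ) = Nat.card U := by
  symm
  apply Nat.card_congr
  exact
    { toFun := fun u => ⟨(u, φ u), by rw [LinearMap.mem_graph_iff]⟩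
      invFun := fun p => p.1.1
      left_inv := fun u => rfl
      right_inv := fun p => by
        apply Subtype.ext
        apply Prod.ext
        · rfl
        · exact (((LinearMap.mem_graph_iff φ) p.1).mp p.2).symm }

theorem B11_card_prod {F : Type} [Field F] {U : Type} [AddCommGroup U] [Module F U] :
    Nat.card (Submodule.prod (⊥ : Submodule F U) (⊤ : Submodule F U)) = Nat.card U := by
  symm
  apply Nat.card_congr
  exact
    { toFun := fun u => ⟨(0, u), by rw [Submodule.mem_prod]; exact ⟨Submodule.zero_mem _, trivial⟩⟩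
      invFun := fun p => p.1.2
      left_inv := fun u => rfl
      right_inv := fun p => by
        apply Subtype.ext
        apply Prod.ext
        · have := (Submodule.mem_prod.mp p.2).1
          exact ((Submodule.mem_bot F).mp this).symm
        · rfl }

theorem B11_inf {F : Type} [Field F] {U : Type} [AddCommGroup U] [Module F U]
    (φ : U →ₗ[F] U) :
    LinearMap.graph φ ⊓ Submodule.prod (⊥ : Submodule F U) (⊤ : Submodule F U) = ⊥ := by
  rw [eq_bot_iff]
  rintro ⟨a, b⟩ ⟨h1, h2⟩
  have h3 : b = φ a := ((LinearMap.mem_graph_iff φ) (a, b)).mp h1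
  have h4 : a = 0 := (Submodule.mem_bot F).mp (Submodule.mem_prod.mp h2).1
  rw [Submodule.mem_bot]
  rw [h3, h4, map_zero]
  rfl

/-! ### The upper count -/

theorem B11_finite {F V E : Type} [Field F] [AddCommGroup V] [Module F V] [Finite V]
    [AddCommGroup E] [Module F E] [Finite E] : Finite (V →ₗ[F] E) :=
  Finite.of_injective (fun y : V →ₗ[F] E => (y : V → E)) DFunLike.coe_injective

theorem B11_upper (hK : T_KEMPE) (hBad : T_BAD)
    (F : Type) [Field F] [Fintype F] (V : Type) [AddCommGroup V] [Module F V] [Finite V]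
    (E : Type) [AddCommGroup E] [Module F E] [Finite E]
    (ι : Type) (v : ι → V) (T : Finset ι) (f : ι → E) (W : Submodule F V) (z : V →ₗ[F] E)
    (L1 L2 : Submodule F E) (u2 m2 Y : ℕ) (L M2 : ℝ) (hL : 0 < L) (hM2 : 0 ≤ M2)
    (hL1 : (Nat.card L1 : ℝ) = L) (hL2 : (Nat.card L2 : ℝ) = L) (h12 : L1 ⊓ L2 = ⊥)
    (hY : ∀ z' : V →ₗ[F] E, (YY F v T f W z').ncard ≤ Y)
    (hlarge : ∀ z' : V →ₗ[F] E,
      Module.finrank F (sp F v (T.filter (fun i => v i ∈ W ∧ z' (v i) - f i ∈ L2))) < m2 →
      ({y | y ∈ YY F v T f W z' ∧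
        u2 < Module.finrank F (W ⊓ sp F v (TL F v T f L2 y) : Submodule F V)}.ncard : ℝ) ≤ M2) :
    ({y | y ∈ Av F v T f ∧ ∀ w ∈ W, y w - z w ∈ L1}.ncard : ℝ) ≤
      ((Av F v T f).ncard : ℝ) / L ^ (Module.finrank F W - u2) +
      L ^ (Module.finrank F W) * M2 +
      ((T.filter (fun i => v i ∈ W)).card.choose m2 : ℝ) *
        L ^ (Module.finrank F W - m2) * (Y : ℝ) := by
  have hfinW : Finite (W →ₗ[F] E) := B11_finite
  have hfinV : Finite (V →ₗ[F] E) := B11_finite
  have : Fintype (W →ₗ[F] E) := Fintype.ofFinite _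
  set k := Module.finrank F W with hk
  set A := T.filter (fun i => v i ∈ W) with hA
  choose ext hext using fun l : W →ₗ[F] E => LinearMap.exists_extend (p := W) l
  have hextw : ∀ (l : W →ₗ[F] E) (w : W), ext l w = l w := by
    intro l w
    have := LinearMap.congr_fun (hext l) w
    simpa using this
  set I : Finset (W →ₗ[F] E) := Finset.univ.filter (fun l => ∀ w, l w ∈ L1) with hI
  set bad : (W →ₗ[F] E) → Prop := fun l => m2 ≤ Module.finrank F
        (sp F v (A.filter (fun i => ∃ h : v i ∈ W, z (v i) + l ⟨v i, h⟩ - f i ∈ L2))) with hbad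
  have hcardI : (I.card : ℝ) ≤ L ^ k := by
    have h1 := hBad F V E ι v A f W z L1 L2 0 (by
      intro i hi
      exact (Finset.mem_filter.mp hi).2) h12
    have h2 : I.card ≤ Nat.card L1 ^ k := by
      calc I.card = (I : Set (W →ₗ[F] E)).ncard := (Set.ncard_coe_finset I).symm
        _ ≤ _ := by
          apply Set.ncard_le_ncard _ (Set.toFinite _)
          intro l hl
          exact ⟨(Finset.mem_filter.mp (Finset.mem_coe.mp hl)).2, Nat.zero_le _⟩
        _ ≤ _ := h1
        _ = Nat.card L1 ^ k := by simp [hk]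
    calc (I.card : ℝ) ≤ ((Nat.card L1 ^ k : ℕ) : ℝ) := by exact_mod_cast h2
      _ = L ^ k := by push_cast; rw [hL1]
  have hcardB : ((I.filter bad).card : ℝ) ≤ (A.card.choose m2 : ℝ) * L ^ (k - m2) := by
    have h1 := hBad F V E ι v A f W z L1 L2 m2 (by
      intro i hi
      exact (Finset.mem_filter.mp hi).2) h12
    have h2 : (I.filter bad).card ≤ A.card.choose m2 * Nat.card L1 ^ (k - m2) := by
      calc (I.filter bad).card = ((I.filter bad : Finset _) : Set (W →ₗ[F] E)).ncard :=
            (Set.ncard_coe_finset _).symm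
        _ ≤ _ := by
          apply Set.ncard_le_ncard _ (Set.toFinite _)
          intro l hl
          have h3 := Finset.mem_filter.mp (Finset.mem_coe.mp hl)
          exact ⟨(Finset.mem_filter.mp h3.1).2, h3.2⟩
        _ ≤ _ := h1
    calc ((I.filter bad).card : ℝ) ≤ ((A.card.choose m2 * Nat.card L1 ^ (k - m2) : ℕ) : ℝ) := by
          exact_mod_cast h2
      _ = (A.card.choose m2 : ℝ) * L ^ (k - m2) := by push_cast; rw [hL1]
  -- the three pieces
  set Q : Set (V →ₗ[F] E) := {y | y ∈ Av F v T f ∧ ∀ w ∈ W, y w - z w ∈ L1} with hQ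
  have hYYmem : ∀ (l : W →ₗ[F] E) (y : V →ₗ[F] E), y ∈ Av F v T f →
      (∀ w : W, y w = z w + l w) → y ∈ YY F v T f W (z + ext l) := by
    intro l y hy h
    refine ⟨hy, ?_⟩
    intro w hw
    rw [LinearMap.add_apply, hextw l ⟨w, hw⟩]
    exact h ⟨w, hw⟩
  set Sm : (W →ₗ[F] E) → Set (V →ₗ[F] E) := fun l => {y | y ∈ YY F v T f W (z + ext l) ∧
    Module.finrank F (W ⊓ sp F v (TL F v T f L2 y) : Submodule F V) ≤ u2} with hSm
  set Lg : (W →ₗ[F] E) → Set (V →ₗ[F] E) := fun l => {y | y ∈ YY F v T f W (z + ext l) ∧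
    u2 < Module.finrank F (W ⊓ sp F v (TL F v T f L2 y) : Submodule F V)} with hLg
  have hQsum : Q.ncard ≤ ∑ l ∈ I, (YY F v T f W (z + ext l)).ncard := by
    apply B11_ncard_le_sum
    rintro y ⟨hy, hy2⟩
    refine ⟨(y - z).domRestrict W, ?_, ?_⟩
    · rw [hI, Finset.mem_filter]
      refine ⟨Finset.mem_univ _, ?_⟩
      intro w
      exact hy2 w w.2
    · apply hYYmem _ _ hy
      intro w
      rw [LinearMap.domRestrict_apply, LinearMap.sub_apply]
      abel
  have hsplit : ∑ l ∈ I, (YY F v T f W (z + ext l)).ncard =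
      ∑ l ∈ I.filter bad, (YY F v T f W (z + ext l)).ncard +
      ∑ l ∈ I.filter (fun l => ¬ bad l), (YY F v T f W (z + ext l)).ncard :=
    (Finset.sum_filter_add_sum_filter_not I bad _).symm
  have hbadsum : (∑ l ∈ I.filter bad, (YY F v T f W (z + ext l)).ncard) ≤
      (I.filter bad).card * Y := by
    calc (∑ l ∈ I.filter bad, (YY F v T f W (z + ext l)).ncard) ≤
        ∑ _l ∈ I.filter bad, Y := Finset.sum_le_sum (fun l _ => hY _)
      _ = (I.filter bad).card * Y := by rw [Finset.sum_const, smul_eq_mul]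
  have hgoodsplit : ∀ l, (YY F v T f W (z + ext l)).ncard ≤ (Sm l).ncard + (Lg l).ncard := by
    intro l
    have h1 : YY F v T f W (z + ext l) ⊆ Sm l ∪ Lg l := by
      intro y hy
      rcases Nat.lt_or_ge u2 (Module.finrank F
        (W ⊓ sp F v (TL F v T f L2 y) : Submodule F V)) with h | h
      · exact Or.inr ⟨hy, h⟩
      · exact Or.inl ⟨hy, h⟩
    exact (Set.ncard_le_ncard h1 (Set.toFinite _)).trans (Set.ncard_union_le _ _)
  have hgoodLg : ∀ l ∈ I.filter (fun l => ¬ bad l), ((Lg l).ncard : ℝ) ≤ M2 := by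
    intro l hl
    apply hlarge (z + ext l)
    have h1 : ¬ bad l := (Finset.mem_filter.mp hl).2
    have h2 : T.filter (fun i => v i ∈ W ∧ (z + ext l) (v i) - f i ∈ L2) =
        A.filter (fun i => ∃ h : v i ∈ W, z (v i) + l ⟨v i, h⟩ - f i ∈ L2) := by
      ext i
      rw [hA, Finset.mem_filter, Finset.mem_filter, Finset.mem_filter]
      constructor
      · rintro ⟨h3, h4, h5⟩
        refine ⟨⟨h3, h4⟩, h4, ?_⟩
        rw [LinearMap.add_apply, hextw l ⟨v i, h4⟩] at h5
        exact h5
      · rintro ⟨⟨h3, _⟩, h4, h5⟩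
        refine ⟨h3, h4, ?_⟩
        rw [LinearMap.add_apply, hextw l ⟨v i, h4⟩]
        exact h5
    rw [h2]
    exact not_le.mp h1
  have hgoodSm : ((∑ l ∈ I.filter (fun l => ¬ bad l), (Sm l).ncard : ℕ) : ℝ) * L ^ (k - u2) ≤
      ((Av F v T f).ncard : ℝ) := by
    have h1 : ∀ l, (Sm l).ncard * Nat.card L2 ^ (k - u2) ≤
        {y | y ∈ Av F v T f ∧ ∀ w ∈ W, y w - (z + ext l) w ∈ L2}.ncard := by
      intro l
      exact hK F V E ι v T f W (z + ext l) L2 u2
    have h2 : ∑ l ∈ I.filter (fun l => ¬ bad l),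
        {y | y ∈ Av F v T f ∧ ∀ w ∈ W, y w - (z + ext l) w ∈ L2}.ncard ≤
        (Av F v T f).ncard := by
      apply B11_sum_le_ncard
      · rintro l _ y ⟨hy, _⟩
        exact hy
      · intro l hl l' hl' y hy hy'
        have h3 := (Finset.mem_filter.mp (Finset.mem_filter.mp hl).1).2
        have h4 := (Finset.mem_filter.mp (Finset.mem_filter.mp hl').1).2
        apply LinearMap.ext
        intro w
        have h5 : l w - l' w ∈ L1 := Submodule.sub_mem _ (h3 w) (h4 w)
        have h6 : l w - l' w ∈ L2 := by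
          have h7 := hy.2 w w.2
          have h8 := hy'.2 w w.2
          rw [LinearMap.add_apply, hextw] at h7 h8
          have h9 := Submodule.sub_mem _ h8 h7
          have h10 : y ↑w - (z ↑w + l' w) - (y ↑w - (z ↑w + l w)) = l w - l' w := by abel
          rw [h10] at h9
          exact h9
        have h7 : l w - l' w ∈ (L1 ⊓ L2 : Submodule F E) := ⟨h5, h6⟩
        rw [h12, Submodule.mem_bot] at h7
        exact sub_eq_zero.mp h7
    have h3 : (∑ l ∈ I.filter (fun l => ¬ bad l), (Sm l).ncard) * Nat.card L2 ^ (k - u2) ≤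
        (Av F v T f).ncard := by
      rw [Finset.sum_mul]
      exact (Finset.sum_le_sum (fun l _ => h1 l)).trans h2
    have h4 : (((∑ l ∈ I.filter (fun l => ¬ bad l), (Sm l).ncard) * Nat.card L2 ^ (k - u2) : ℕ)
        : ℝ) ≤ ((Av F v T f).ncard : ℝ) := by exact_mod_cast h3
    rw [Nat.cast_mul, Nat.cast_pow, hL2] at h4
    exact h4
  have hgoodSm' : ((∑ l ∈ I.filter (fun l => ¬ bad l), (Sm l).ncard : ℕ) : ℝ) ≤
      ((Av F v T f).ncard : ℝ) / L ^ (k - u2) := by
    rw [le_div_iff₀ (by positivity)]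
    exact hgoodSm
  have hgoodLgsum : ((∑ l ∈ I.filter (fun l => ¬ bad l), (Lg l).ncard : ℕ) : ℝ) ≤
      L ^ k * M2 := by
    push_cast
    calc ∑ l ∈ I.filter (fun l => ¬ bad l), ((Lg l).ncard : ℝ) ≤
        ∑ _l ∈ I.filter (fun l => ¬ bad l), M2 := Finset.sum_le_sum hgoodLg
      _ = ((I.filter (fun l => ¬ bad l)).card : ℝ) * M2 := by
          rw [Finset.sum_const, nsmul_eq_mul]
      _ ≤ L ^ k * M2 := by
          apply mul_le_mul_of_nonneg_right _ hM2
          have : (I.filter (fun l => ¬ bad l)).card ≤ I.card := Finset.card_filter_le _ _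
          calc ((I.filter (fun l => ¬ bad l)).card : ℝ) ≤ (I.card : ℝ) := by exact_mod_cast this
            _ ≤ L ^ k := hcardI
  have hgoodsum : ((∑ l ∈ I.filter (fun l => ¬ bad l),
      (YY F v T f W (z + ext l)).ncard : ℕ) : ℝ) ≤
      ((Av F v T f).ncard : ℝ) / L ^ (k - u2) + L ^ k * M2 := by
    have h1 : ∑ l ∈ I.filter (fun l => ¬ bad l), (YY F v T f W (z + ext l)).ncard ≤
        ∑ l ∈ I.filter (fun l => ¬ bad l), (Sm l).ncard +
        ∑ l ∈ I.filter (fun l => ¬ bad l), (Lg l).ncard := by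
      rw [← Finset.sum_add_distrib]
      exact Finset.sum_le_sum (fun l _ => hgoodsplit l)
    have h2 : ((∑ l ∈ I.filter (fun l => ¬ bad l),
      (YY F v T f W (z + ext l)).ncard : ℕ) : ℝ) ≤
      ((∑ l ∈ I.filter (fun l => ¬ bad l), (Sm l).ncard : ℕ) : ℝ) +
      ((∑ l ∈ I.filter (fun l => ¬ bad l), (Lg l).ncard : ℕ) : ℝ) := by
      exact_mod_cast h1
    linarith
  have hbadsum' : ((∑ l ∈ I.filter bad, (YY F v T f W (z + ext l)).ncard : ℕ) : ℝ) ≤
      (A.card.choose m2 : ℝ) * L ^ (k - m2) * (Y : ℝ) := by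
    calc ((∑ l ∈ I.filter bad, (YY F v T f W (z + ext l)).ncard : ℕ) : ℝ) ≤
        (((I.filter bad).card * Y : ℕ) : ℝ) := by exact_mod_cast hbadsum
      _ = ((I.filter bad).card : ℝ) * (Y : ℝ) := by push_cast; rfl
      _ ≤ _ := mul_le_mul_of_nonneg_right hcardB (by positivity)
  have hfin : (Q.ncard : ℝ) ≤
      ((∑ l ∈ I.filter bad, (YY F v T f W (z + ext l)).ncard : ℕ) : ℝ) +
      ((∑ l ∈ I.filter (fun l => ¬ bad l), (YY F v T f W (z + ext l)).ncard : ℕ) : ℝ) := by
    have h1 := hQsum
    rw [hsplit] at h1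
    exact_mod_cast h1
  linarith

/-! ### The lower count -/

theorem B11_lower (hK : T_KEMPE)
    (F : Type) [Field F] [Fintype F] (V : Type) [AddCommGroup V] [Module F V] [Finite V]
    (E : Type) [AddCommGroup E] [Module F E] [Finite E]
    (ι : Type) (v : ι → V) (T : Finset ι) (f : ι → E) (W : Submodule F V) (z : V →ₗ[F] E)
    (L1 : Submodule F E) (u1 : ℕ) (L M1 : ℝ) (hL : 0 < L) (hL1 : (Nat.card L1 : ℝ) = L)
    (hlarge : ({y | y ∈ YY F v T f W z ∧
        u1 < Module.finrank F (W ⊓ sp F v (TL F v T f L1 y) : Submodule F V)}.ncard : ℝ) ≤ M1) :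
    (((YY F v T f W z).ncard : ℝ) - M1) * L ^ (Module.finrank F W - u1) ≤
      ({y | y ∈ Av F v T f ∧ ∀ w ∈ W, y w - z w ∈ L1}.ncard : ℝ) := by
  have hfinV : Finite (V →ₗ[F] E) := B11_finite
  have h1 := hK F V E ι v T f W z L1 u1
  set Sm : Set (V →ₗ[F] E) := {y | y ∈ YY F v T f W z ∧
    Module.finrank F (W ⊓ sp F v (TL F v T f L1 y) : Submodule F V) ≤ u1} with hSm
  set Lg : Set (V →ₗ[F] E) := {y | y ∈ YY F v T f W z ∧
    u1 < Module.finrank F (W ⊓ sp F v (TL F v T f L1 y) : Submodule F V)} with hLg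
  have h2 : (YY F v T f W z).ncard ≤ Sm.ncard + Lg.ncard := by
    have h1 : YY F v T f W z ⊆ Sm ∪ Lg := by
      intro y hy
      rcases Nat.lt_or_ge u1 (Module.finrank F
        (W ⊓ sp F v (TL F v T f L1 y) : Submodule F V)) with h | h
      · exact Or.inr ⟨hy, h⟩
      · exact Or.inl ⟨hy, h⟩
    exact (Set.ncard_le_ncard h1 (Set.toFinite _)).trans (Set.ncard_union_le _ _)
  have h3 : ((YY F v T f W z).ncard : ℝ) ≤ (Sm.ncard : ℝ) + (Lg.ncard : ℝ) := by
    exact_mod_cast h2
  have h4 : (Sm.ncard : ℝ) * L ^ (Module.finrank F W - u1) ≤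
      ({y | y ∈ Av F v T f ∧ ∀ w ∈ W, y w - z w ∈ L1}.ncard : ℝ) := by
    rw [← hL1]
    exact_mod_cast h1
  have h5 : ((YY F v T f W z).ncard : ℝ) - M1 ≤ (Sm.ncard : ℝ) := by linarith
  calc (((YY F v T f W z).ncard : ℝ) - M1) * L ^ (Module.finrank F W - u1) ≤
        (Sm.ncard : ℝ) * L ^ (Module.finrank F W - u1) :=
        mul_le_mul_of_nonneg_right h5 (by positivity)
    _ ≤ _ := h4

theorem B11_sp_card {F V ι : Type} [Field F] [AddCommGroup V] [Module F V]
    (v : ι → V) (J : Finset ι) : Module.finrank F (sp F v J) ≤ J.card := by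
  unfold sp
  have h1 : (v '' (J : Set ι)) = ((J.image v : Finset V) : Set V) := by
    rw [Finset.coe_image]
  rw [h1]
  exact (finrank_span_finset_le_card _).trans Finset.card_image_le

/-- The inequality (SP) for closed `W`. -/
theorem B11 (hK : T_KEMPE) (hLarge : T_LARGE) (hBad : T_BAD) (hCh : T_CHOICE) (hNum : T_NUM)
    (hZ1 : T_Z1) : T_STEP := by
  intro F _ _ V _ _ _ U _ _ _ ι v N T f tau W h4 hL hTN hN hHF hDens hDens0 hSP z0
  have hfinV : Finite (V →ₗ[F] U × U) := B11_finite
  have hLpos : (0 : ℝ) < (Nat.card U : ℝ) := by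
    have : (0 : ℝ) < 10 ^ 22 * tau ^ 24 := by positivity
    linarith
  obtain ⟨hd0, hd1, hexpd, hx0, hx1, h128, hkE, hb0, heta4⟩ := B11_num tau (Nat.card U) h4 hL
  have hcardE : (Nat.card (U × U) : ℝ) = (Nat.card U : ℝ) * (Nat.card U : ℝ) := by
    rw [Nat.card_prod]
    push_cast
    rfl
  obtain ⟨L, hLdef⟩ : ∃ L : ℝ, L = (Nat.card U : ℝ) := ⟨_, rfl⟩
  obtain ⟨k, hk⟩ : ∃ k : ℕ, k = Module.finrank F W := ⟨_, rfl⟩
  rw [hcardE, ← hk]
  rw [← hLdef] at hL hSP hLpos h128 hkE hb0 heta4 hcardE ⊢
  -- reduction to maximal `z`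
  obtain ⟨z, hz⟩ : ∃ z : V →ₗ[F] U × U, ∀ z', (YY F v T f W z').ncard ≤ (YY F v T f W z).ncard :=
    Finite.exists_max (fun z => (YY F v T f W z).ncard)
  set Y := (YY F v T f W z).ncard with hY
  have hred : (Y : ℝ) * (L * L) ^ k ≤
      Real.exp (GG F v N (xx tau) (kk L) (bb tau L) W) * ((Av F v T f).ncard : ℝ) := by
    rcases Nat.eq_zero_or_pos k with hk0 | hkpos
    · -- `W = 0`
      have hW : W = ⊥ := by
        rw [hk] at hk0
        exact Submodule.finrank_eq_zero.mp hk0
      have h1 : GG F v N (xx tau) (kk L) (bb tau L) W = 0 := by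
        rw [hW]
        unfold GG
        simp
      rw [h1, Real.exp_zero, hk0, pow_zero, mul_one, one_mul]
      have h2 : Y ≤ (Av F v T f).ncard := by
        apply Set.ncard_le_ncard _ (Set.toFinite _)
        intro y hy
        exact hy.1
      exact_mod_cast h2
    · rcases Nat.eq_zero_or_pos Y with hY0 | hYpos
      · rw [hY0]
        simp only [Nat.cast_zero, zero_mul]
        positivity
      · -- the main case
        have hne : (YY F v T f W z).Nonempty := by
          rw [← Set.ncard_pos (Set.toFinite _)]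
          exact hYpos
        obtain ⟨y0, hy0⟩ := hne
        set A := T.filter (fun i => v i ∈ W) with hA
        have heA : ∀ i ∈ A, z (v i) - f i ≠ 0 := by
          intro i hi h
          have h1 := Finset.mem_filter.mp hi
          have h2 := hy0.2 (v i) h1.2
          have h3 := hy0.1 i h1.1
          rw [h2] at h3
          exact h3 (sub_eq_zero.mp h)
        obtain ⟨φ, hφ⟩ := hCh F U ι A (fun i => z (v i) - f i) heA
        have hAcard : (A.card : ℝ) ≤ tau * k := by
          have h1 := hDens0 W bot_le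
          have h2 : A ⊆ N.filter (fun i => v i ∈ W ∧ v i ∉ (⊥ : Submodule F V)) := by
            intro i hi
            have h3 := Finset.mem_filter.mp hi
            rw [Finset.mem_filter]
            refine ⟨hTN h3.1, h3.2, ?_⟩
            rw [Submodule.mem_bot]
            exact hN i (hTN h3.1)
          have h3 : (A.card : ℝ) ≤
              ((N.filter (fun i => v i ∈ W ∧ v i ∉ (⊥ : Submodule F V))).card : ℝ) := by
            exact_mod_cast Finset.card_le_card h2
          rw [finrank_bot, ← hk] at h1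
          calc (A.card : ℝ) ≤ _ := h3
            _ ≤ tau * ((k : ℝ) - ((0 : ℕ) : ℝ)) := h1
            _ = tau * k := by push_cast; ring
        set L1 : Submodule F (U × U) := LinearMap.graph φ with hL1
        set L2 : Submodule F (U × U) := Submodule.prod ⊥ ⊤ with hL2
        have hcL1 : (Nat.card L1 : ℝ) = L := by rw [hL1, B11_card_graph, hLdef]
        have hcL2 : (Nat.card L2 : ℝ) = L := by rw [hL2, B11_card_prod, hLdef]
        have h12 : L1 ⊓ L2 = ⊥ := B11_inf φ
        have hkR : (1 : ℝ) ≤ k := by exact_mod_cast hkpos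
        have htau0 : 0 < tau := by linarith
        obtain ⟨a, ha⟩ : ∃ a : ℝ, a = ((Av F v T f).ncard : ℝ) := ⟨_, rfl⟩
        have ha0 : 0 ≤ a := by rw [ha]; positivity
        obtain ⟨g, hg⟩ : ∃ g : ℝ, g = Real.exp (GG F v N (xx tau) (kk L) (bb tau L) W) /
          (L * L) ^ k := ⟨_, rfl⟩
        have hgL : g * (L * L) ^ k = Real.exp (GG F v N (xx tau) (kk L) (bb tau L) W) := by
          rw [hg, div_mul_cancel₀]
          positivity
        have hg0 : 0 < g := by rw [hg]; positivity
        -- generic consequence of `T_LARGE`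
        have hlg : ∀ (z' : V →ₗ[F] U × U) (Lam : Submodule F (U × U)) (w0 : ℝ) (j0 u : ℕ),
            (Nat.card Lam : ℝ) = L → 0 ≤ w0 → 1 ≤ j0 → ((j0 : ℝ) - 1) * tau ≤ w0 →
            u = ⌊2 * w0⌋₊ →
            (Module.finrank F (sp F v (T.filter (fun i => v i ∈ W ∧ z' (v i) - f i ∈ Lam))) : ℝ)
              ≤ w0 →
            ({y | y ∈ YY F v T f W z' ∧
              u < Module.finrank F (W ⊓ sp F v (TL F v T f Lam y) : Submodule F V)}.ncard : ℝ) ≤
            8 * Real.exp (dd tau * k) *
              (2 * (2 * Real.exp (dd tau) / (xx tau ^ 2 * Real.sqrt L))) ^ j0 * (g * a) := by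
          intro z' Lam w0 j0 u hLam hw0 hj0 hjw hu hfr
          have h1 := hLarge F V (U × U) ι v N T f (xx tau) (kk L) (bb tau L) (dd tau) tau w0
            (2 * Real.exp (dd tau) / (xx tau ^ 2 * Real.sqrt L)) j0 W z' Lam hx0 hx1 hb0 hd0.le
            htau0 hw0 hj0 hjw (by rw [hcardE]; exact hkE) hTN hN hHF hDens hSP
            (by rw [hcardE, hLam]; exact B11_eta _ _ _ hx0 hLpos) heta4 hfr
          rw [hcardE, ← hk, ← hgL, ← ha] at h1
          have h2 : {y | y ∈ YY F v T f W z' ∧
              u < Module.finrank F (W ⊓ sp F v (TL F v T f Lam y) : Submodule F V)} ⊆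
              {y | y ∈ YY F v T f W z' ∧ 2 * w0 <
              (Module.finrank F (W ⊓ sp F v (TL F v T f Lam y) : Submodule F V) : ℝ)} := by
            rintro y ⟨hy1, hy2⟩
            refine ⟨hy1, ?_⟩
            rw [hu] at hy2
            exact (Nat.floor_lt (by positivity)).mp hy2
          have h3 : ({y | y ∈ YY F v T f W z' ∧
              u < Module.finrank F (W ⊓ sp F v (TL F v T f Lam y) : Submodule F V)}.ncard : ℝ) ≤
              ({y | y ∈ YY F v T f W z' ∧ 2 * w0 <
              (Module.finrank F (W ⊓ sp F v (TL F v T f Lam y) : Submodule F V) : ℝ)}.ncard : ℝ)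
              := by
            exact_mod_cast Set.ncard_le_ncard h2 (Set.toFinite _)
          have hLL : 0 < (L * L) ^ k := by positivity
          have h4 : ({y | y ∈ YY F v T f W z' ∧ 2 * w0 <
              (Module.finrank F (W ⊓ sp F v (TL F v T f Lam y) : Submodule F V) : ℝ)}.ncard : ℝ)
              ≤ 8 * Real.exp (dd tau * k) *
              (2 * (2 * Real.exp (dd tau) / (xx tau ^ 2 * Real.sqrt L))) ^ j0 * (g * a) := by
            apply le_of_mul_le_mul_right _ hLL
            calc _ ≤ _ := h1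
              _ = _ := by ring
          exact h3.trans h4
        -- step 1
        have hM1 : ({y | y ∈ YY F v T f W z ∧ ⌊(k : ℝ) / (64 * tau)⌋₊ <
            Module.finrank F (W ⊓ sp F v (TL F v T f L1 y) : Submodule F V)}.ncard : ℝ) ≤
            8 * Real.exp (dd tau * k) *
              (2 * (2 * Real.exp (dd tau) / (xx tau ^ 2 * Real.sqrt L))) ^
                (⌊(k : ℝ) / (128 * tau ^ 2)⌋₊ + 1) * (g * a) := by
          apply hlg z L1 ((k : ℝ) / (128 * tau)) _ _ hcL1 (by positivity) (Nat.le_add_left 1 _)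
          · push_cast
            rw [add_sub_cancel_right]
            have h1 : (⌊(k : ℝ) / (128 * tau ^ 2)⌋₊ : ℝ) ≤ (k : ℝ) / (128 * tau ^ 2) :=
              Nat.floor_le (by positivity)
            calc (⌊(k : ℝ) / (128 * tau ^ 2)⌋₊ : ℝ) * tau ≤ (k : ℝ) / (128 * tau ^ 2) * tau :=
                  mul_le_mul_of_nonneg_right h1 htau0.le
              _ = (k : ℝ) / (128 * tau) := by field_simp
          · congr 1
            field_simp
            norm_num
          · have h1 : (Module.finrank F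
                (sp F v (T.filter (fun i => v i ∈ W ∧ z (v i) - f i ∈ L1))) : ℝ) ≤
                ((A.filter (fun i => (z (v i) - f i).2 = φ (z (v i) - f i).1)).card : ℝ) := by
              have h2 : T.filter (fun i => v i ∈ W ∧ z (v i) - f i ∈ L1) =
                  A.filter (fun i => (z (v i) - f i).2 = φ (z (v i) - f i).1) := by
                ext i
                rw [hA, Finset.mem_filter, Finset.mem_filter, Finset.mem_filter, hL1,
                  LinearMap.mem_graph_iff]
                tauto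
              rw [h2]
              exact_mod_cast B11_sp_card v _
            have h2 : ((A.filter (fun i => (z (v i) - f i).2 = φ (z (v i) - f i).1)).card : ℝ) *
                L ≤ tau * k := by
              refine le_trans ?_ hAcard
              rw [hLdef]
              exact_mod_cast hφ
            rw [le_div_iff₀ (by positivity)]
            have h3 : (Module.finrank F
                (sp F v (T.filter (fun i => v i ∈ W ∧ z (v i) - f i ∈ L1))) : ℝ) * L ≤
                tau * k := le_trans (mul_le_mul_of_nonneg_right h1 hLpos.le) h2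
            obtain ⟨r, hr⟩ : ∃ r : ℝ, r = (Module.finrank F
                (sp F v (T.filter (fun i => v i ∈ W ∧ z (v i) - f i ∈ L1))) : ℝ) := ⟨_, rfl⟩
            rw [← hr] at h3 ⊢
            have hr0 : 0 ≤ r := by rw [hr]; positivity
            have h4 : r * (128 * tau ^ 2) ≤ tau * k :=
              le_trans (mul_le_mul_of_nonneg_left h128 hr0) h3
            have h5 : (r * (128 * tau)) * tau ≤ k * tau := by
              calc (r * (128 * tau)) * tau = r * (128 * tau ^ 2) := by ring
                _ ≤ tau * k := h4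
                _ = k * tau := by ring
            exact le_of_mul_le_mul_right h5 htau0
        have hlow := B11_lower hK F V (U × U) ι v T f W z L1 ⌊(k : ℝ) / (64 * tau)⌋₊ L _
          hLpos hcL1 hM1
        -- step 2
        have hM2 : ∀ z' : V →ₗ[F] U × U,
            Module.finrank F (sp F v (T.filter (fun i => v i ∈ W ∧ z' (v i) - f i ∈ L2))) <
              ⌊(k : ℝ) / 16⌋₊ + 1 →
            ({y | y ∈ YY F v T f W z' ∧ ⌊(k : ℝ) / 8⌋₊ <
              Module.finrank F (W ⊓ sp F v (TL F v T f L2 y) : Submodule F V)}.ncard : ℝ) ≤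
            8 * Real.exp (dd tau * k) *
              (2 * (2 * Real.exp (dd tau) / (xx tau ^ 2 * Real.sqrt L))) ^
                (⌊(k : ℝ) / (16 * tau)⌋₊ + 1) * (g * a) := by
          intro z' hz'
          apply hlg z' L2 ((k : ℝ) / 16) _ _ hcL2 (by positivity) (Nat.le_add_left 1 _)
          · push_cast
            rw [add_sub_cancel_right]
            have h1 : (⌊(k : ℝ) / (16 * tau)⌋₊ : ℝ) ≤ (k : ℝ) / (16 * tau) :=
              Nat.floor_le (by positivity)
            calc (⌊(k : ℝ) / (16 * tau)⌋₊ : ℝ) * tau ≤ (k : ℝ) / (16 * tau) * tau :=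
                  mul_le_mul_of_nonneg_right h1 htau0.le
              _ = (k : ℝ) / 16 := by field_simp
          · congr 1
            ring
          · have h1 : (Module.finrank F
              (sp F v (T.filter (fun i => v i ∈ W ∧ z' (v i) - f i ∈ L2))) : ℝ) ≤
              (⌊(k : ℝ) / 16⌋₊ : ℝ) := by
              exact_mod_cast Nat.lt_succ_iff.mp hz'
            exact h1.trans (Nat.floor_le (by positivity))
        have hM20 : 0 ≤ 8 * Real.exp (dd tau * k) *
              (2 * (2 * Real.exp (dd tau) / (xx tau ^ 2 * Real.sqrt L))) ^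
                (⌊(k : ℝ) / (16 * tau)⌋₊ + 1) * (g * a) := by positivity
        have hup := B11_upper hK hBad F V (U × U) ι v T f W z L1 L2 ⌊(k : ℝ) / 8⌋₊
          (⌊(k : ℝ) / 16⌋₊ + 1) Y L _ hLpos hM20 hcL1 hcL2 h12 hz hM2
        rw [← hk, ← ha] at hup
        rw [← hk] at hlow
        have hmain := hlow.trans hup
        -- the lower bound on `exp G`
        have hG : L ^ ((k : ℝ) / 4) ≤ g * L ^ (2 * k) := by
          have e1 : g * L ^ (2 * k) = Real.exp (GG F v N (xx tau) (kk L) (bb tau L) W) := by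
            rw [← hgL, pow_mul, ← sq]
          rw [e1, Real.rpow_def_of_pos hLpos]
          apply Real.exp_le_exp.mpr
          obtain ⟨-, hZge, -, -⟩ := hZ1 F V ι v N (xx tau) hx0.le
          have hZ0 := hZge ⊥
          have hZW := hZge W
          have h1 := hHF W
          have h2 : Real.log (ZZ F v N (xx tau) ⊥) - Real.log (ZZ F v N (xx tau) W) ≤
              dd tau * k := by
            have h3 : Real.log (ZZ F v N (xx tau) ⊥) ≤
                Real.log (Real.exp (dd tau * (Module.finrank F W : ℝ)) *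
                  ZZ F v N (xx tau) W) := Real.log_le_log (by linarith) h1
            rw [Real.log_mul (Real.exp_pos _).ne' (by linarith), Real.log_exp, ← hk] at h3
            linarith
          unfold GG
          rw [← hk]
          have h3 : bb tau L * (Real.log (ZZ F v N (xx tau) ⊥) -
              Real.log (ZZ F v N (xx tau) W)) ≤ bb tau L * (dd tau * k) :=
            mul_le_mul_of_nonneg_left h2 hb0
          have h4 : bb tau L * (dd tau * k) = kk L * k / 2 := by
            unfold bb
            field_simp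
          have h5 : Real.log L * ((k : ℝ) / 4) = kk L * k - kk L * k / 2 := by
            unfold kk
            ring
          rw [h5]
          linarith
        have hfin := hNum k A.card tau L g a Y hkpos h4 hL ha0 (by positivity) hAcard hG hmain
        calc (Y : ℝ) * (L * L) ^ k ≤ (g * a) * (L * L) ^ k :=
              mul_le_mul_of_nonneg_right hfin (by positivity)
          _ = (g * (L * L) ^ k) * a := by ring
          _ = _ := by rw [hgL, ha]
  refine le_trans ?_ hred
  apply mul_le_mul_of_nonneg_right _ (by positivity)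
  exact_mod_cast hz z0

end CE
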