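import Pool.Agent.H49.CE.Targets

/-!
# MP_70000a_co, module B12 : the main claim of Part B (target `T_MAIN`).
-/

set_option autoImplicit false

noncomputable section

namespace CE

open scoped Classical

theorem B12_finite {F V E : Type} [Field F] [AddCommGroup V] [Module F V] [Finite V]
    [AddCommGroup E] [Module F E] [Finite E] : Finite (V →ₗ[F] E) :=
  Finite.of_injective (fun y : V →ₗ[F] E => (y : V → E)) DFunLike.coe_injective

theorem B12_finite_sub {F V : Type} [Field F] [AddCommGroup V] [Module F V] [Finite V] :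
    Finite (Submodule F V) :=
  Finite.of_injective (fun W : Submodule F V => (W : Set V)) SetLike.coe_injective

theorem B12_card_hom {F C E : Type} [Field F] [Fintype F] [AddCommGroup C] [Module F C] [Finite C]
    [AddCommGroup E] [Module F E] [Finite E] :
    Nat.card (C →ₗ[F] E) = Nat.card E ^ Module.finrank F C := by
  have h0 : Finite (C →ₗ[F] E) := B12_finite
  have : Fintype (C →ₗ[F] E) := Fintype.ofFinite _
  have : Fintype C := Fintype.ofFinite _
  have : Fintype E := Fintype.ofFinite _
  rw [Nat.card_eq_fintype_card, Nat.card_eq_fintype_card,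
    Module.card_eq_pow_finrank (K := F) (V := C →ₗ[F] E),
    Module.card_eq_pow_finrank (K := F) (V := E), Module.finrank_linearMap, ← pow_mul, mul_comm]

theorem B12_ext (F : Type) [Field F] [Fintype F] (V : Type) [AddCommGroup V] [Module F V]
    [Finite V] (E : Type) [AddCommGroup E] [Module F E] [Finite E]
    (ι : Type) (v : ι → V) (T : Finset ι) (f : ι → E) (W X : Submodule F V) (hWX : W ≤ X)
    (z : V →ₗ[F] E) (M : ℕ) (hM : ∀ z' : V →ₗ[F] E, (YY F v T f X z').ncard ≤ M) :
    (YY F v T f W z).ncard * Nat.card E ^ Module.finrank F W ≤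
      M * Nat.card E ^ Module.finrank F X := by
  obtain ⟨C0, hC0⟩ := Submodule.exists_isCompl W
  set C : Submodule F V := C0 ⊓ X with hC
  have hsup : W ⊔ C = X := by
    rw [hC, ← sup_inf_assoc_of_le C0 hWX, hC0.sup_eq_top, top_inf_eq]
  have hinf : W ⊓ C = ⊥ := by
    rw [eq_bot_iff]
    intro a ha
    have h1 : a ∈ W ⊓ C0 := ⟨ha.1, ha.2.1⟩
    rw [hC0.inf_eq_bot] at h1
    exact h1
  have hdim : Module.finrank F W + Module.finrank F C = Module.finrank F X := by
    have h1 := Submodule.finrank_sup_add_finrank_inf_eq W C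
    rw [hsup, hinf, finrank_bot, add_zero] at h1
    exact h1.symm
  have h0 : Finite (C →ₗ[F] E) := B12_finite
  have h0' : Finite (V →ₗ[F] E) := B12_finite
  have : Fintype (C →ₗ[F] E) := Fintype.ofFinite _
  have : Fintype (V →ₗ[F] E) := Fintype.ofFinite _
  have hcount : (YY F v T f W z).ncard ≤ Nat.card (C →ₗ[F] E) * M := by
    rw [Set.ncard_eq_toFinset_card', Nat.card_eq_fintype_card, mul_comm]
    have h1 := Finset.card_le_mul_card_image_of_maps_to
      (s := (YY F v T f W z).toFinset) (t := (Finset.univ : Finset (C →ₗ[F] E)))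
      (f := fun y => y.domRestrict C) (fun y _ => Finset.mem_univ _) M (by
        intro l _
        rcases Finset.eq_empty_or_nonempty ((YY F v T f W z).toFinset.filter
          (fun y => y.domRestrict C = l)) with he | ⟨y0, hy0⟩
        · rw [he, Finset.card_empty]
          exact Nat.zero_le _
        · refine le_trans ?_ (hM y0)
          rw [Set.ncard_eq_toFinset_card']
          apply Finset.card_le_card
          intro y hy
          rw [Finset.mem_filter, Set.mem_toFinset] at hy hy0
          rw [Set.mem_toFinset]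
          refine ⟨hy.1.1, ?_⟩
          intro w hw
          rw [← hsup, Submodule.mem_sup] at hw
          obtain ⟨a, ha, c, hc, rfl⟩ := hw
          rw [map_add, map_add, hy.1.2 a ha, hy0.1.2 a ha]
          congr 1
          have h2 := hy.2.trans hy0.2.symm
          have h3 := LinearMap.congr_fun h2 ⟨c, hc⟩
          exact h3)
    rw [Finset.card_univ] at h1
    exact h1
  rw [B12_card_hom] at hcount
  calc (YY F v T f W z).ncard * Nat.card E ^ Module.finrank F W ≤
        (Nat.card E ^ Module.finrank F C * M) * Nat.card E ^ Module.finrank F W :=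
        Nat.mul_le_mul_right _ hcount
    _ = M * Nat.card E ^ Module.finrank F X := by
        rw [← hdim, pow_add]
        ring

theorem B12_consts (tau L : ℝ) (h4 : 4 ≤ tau) (hL : 10 ^ 22 * tau ^ 24 ≤ L) :
    0 < dd tau ∧ 0 < xx tau ∧ 0 ≤ kk L ∧ 0 < bb tau L ∧
    bb tau L * (2 * dd tau) = kk L ∧
    Real.exp (2 * dd tau) ≤ 1 + tau * xx tau ∧ Real.exp (dd tau) ≤ 1 + tau * xx tau ∧
    4 * Real.exp (kk L) ≤ L * L := by
  have ht : 0 < tau := by linarith
  have hL1 : (16 : ℝ) ≤ L := by
    have : (1 : ℝ) ≤ tau ^ 24 := one_le_pow₀ (by linarith)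
    nlinarith
  have hL0 : 0 < L := by linarith
  have hd0 : 0 < dd tau := by unfold dd; positivity
  have hd1 : dd tau ≤ 1 / 2048 := by
    unfold dd
    apply div_le_div_of_nonneg_left (by norm_num) (by norm_num)
    nlinarith
  have hx0 : 0 < xx tau := by unfold xx; positivity
  have hlog : 0 < Real.log L := Real.log_pos (by linarith)
  have hk0 : 0 < kk L := by unfold kk; positivity
  have hb0 : 0 < bb tau L := by unfold bb; positivity
  have hbd : bb tau L * (2 * dd tau) = kk L := by
    unfold bb
    field_simp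
  have hxd : tau * xx tau = 4 * dd tau := by
    unfold xx dd
    field_simp
    norm_num
  have he : Real.exp (2 * dd tau) ≤ 1 + tau * xx tau := by
    rw [hxd]
    have h1 : Real.exp (2 * dd tau) ≤ 1 + 2 * dd tau + (2 * dd tau) ^ 2 := by
      have h2 := Real.abs_exp_sub_one_sub_id_le (x := 2 * dd tau) (by
        rw [abs_of_nonneg (by positivity)]
        linarith)
      have h3 := (abs_le.mp h2).2
      linarith
    nlinarith
  have he2 : Real.exp (dd tau) ≤ 1 + tau * xx tau :=
    (Real.exp_le_exp.mpr (by linarith)).trans he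
  have hsq : Real.exp (kk L) ≤ L := by
    have h1 : kk L ≤ Real.log L := by unfold kk; linarith
    calc Real.exp (kk L) ≤ Real.exp (Real.log L) := Real.exp_le_exp.mpr h1
      _ = L := Real.exp_log hL0
  refine ⟨hd0, hx0, hk0.le, hb0, hbd, he, he2, ?_⟩
  nlinarith

/-- The main claim of Part B. -/
theorem B12 (hDen : T_DEN) (hStep : T_STEP) (hAT : T_AT) (hZ1 : T_Z1) : T_MAIN := by
  intro F _ _ V _ _ _ U _ _ _ ι v N f tau h4 hL hN hHF
  obtain ⟨L, hLdef⟩ : ∃ L : ℝ, L = (Nat.card U : ℝ) := ⟨_, rfl⟩
  obtain ⟨hd0, hx0, hk0, hb0, hbd, he2, he1, hkE⟩ := B12_consts tau (Nat.card U) h4 hL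
  rw [← hLdef] at hL hk0 hb0 hbd hkE
  have hcardE : (Nat.card (U × U) : ℝ) = L * L := by
    rw [Nat.card_prod, hLdef]
    push_cast
    rfl
  have htau0 : 0 < tau := by linarith
  have hfinS : Finite (Submodule F V) := B12_finite_sub
  have hfinV : Finite (V →ₗ[F] U × U) := B12_finite
  obtain ⟨-, hZge, -, -⟩ := hZ1 F V ι v N (xx tau) hx0.le
  have hZpos : ∀ W : Submodule F V, 0 < ZZ F v N (xx tau) W := fun W =>
    lt_of_lt_of_le one_pos (hZge W)
  have hDens0 : Dens F v N tau ⊥ := by
    apply hDen F V ι v N (xx tau) (dd tau) tau ⊥ hx0 hd0.le htau0 he1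
    intro Y _
    have h1 := hHF Y
    rw [finrank_bot]
    simpa using h1
  -- induction on `T`
  have hSP : ∀ T : Finset ι, T ⊆ N → SP F v N (xx tau) (kk L) (bb tau L) f T := by
    intro T
    induction T using Finset.strongInduction with
    | H T ih =>
      intro hTN W z
      -- closure
      obtain ⟨X, hWX, hXmin⟩ : ∃ X : Submodule F V, W ≤ X ∧ ∀ Y : Submodule F V, W ≤ Y →
          GG F v N (xx tau) (kk L) (bb tau L) X ≤ GG F v N (xx tau) (kk L) (bb tau L) Y := by
        obtain ⟨X, hX, hX2⟩ := Set.exists_min_image {X : Submodule F V | W ≤ X}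
          (fun X => GG F v N (xx tau) (kk L) (bb tau L) X) (Set.toFinite _) ⟨W, le_refl W⟩
        exact ⟨X, hX, fun Y hY => hX2 Y hY⟩
      have hDensX : Dens F v N tau X := by
        apply hDen F V ι v N (xx tau) (2 * dd tau) tau X hx0 (by positivity) htau0 he2
        intro Y hXY
        have h1 := hXmin Y (hWX.trans hXY)
        unfold GG at h1
        have h2 : bb tau L * (Real.log (ZZ F v N (xx tau) X) - Real.log (ZZ F v N (xx tau) Y)) ≤
            bb tau L * ((2 * dd tau) *
              ((Module.finrank F Y : ℝ) - (Module.finrank F X : ℝ))) := by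
          rw [← mul_assoc, hbd]
          linarith
        have h3 := le_of_mul_le_mul_left h2 hb0
        have h4 : Real.log (ZZ F v N (xx tau) X) ≤ (2 * dd tau) *
              ((Module.finrank F Y : ℝ) - (Module.finrank F X : ℝ)) +
              Real.log (ZZ F v N (xx tau) Y) := by linarith
        calc ZZ F v N (xx tau) X = Real.exp (Real.log (ZZ F v N (xx tau) X)) :=
              (Real.exp_log (hZpos X)).symm
          _ ≤ Real.exp ((2 * dd tau) * ((Module.finrank F Y : ℝ) - (Module.finrank F X : ℝ)) +
              Real.log (ZZ F v N (xx tau) Y)) := Real.exp_le_exp.mpr h4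
          _ = _ := by rw [Real.exp_add, Real.exp_log (hZpos Y)]
      have hstep := hStep F V U ι v N T f tau X h4 (by rw [← hLdef]; exact hL) hTN hN hHF hDensX
        hDens0 (by
          intro T' hT'
          rw [← hLdef]
          exact ih T' hT' (hT'.1.trans hTN))
      rw [← hLdef] at hstep
      -- maximum over `z'`
      obtain ⟨z1, hz1⟩ : ∃ z1 : V →ₗ[F] U × U,
          ∀ z', (YY F v T f X z').ncard ≤ (YY F v T f X z1).ncard :=
        Finite.exists_max (fun z => (YY F v T f X z).ncard)
      have hext := B12_ext F V (U × U) ι v T f W X hWX z _ hz1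
      have hext' : ((YY F v T f W z).ncard : ℝ) * (Nat.card (U × U) : ℝ) ^ Module.finrank F W ≤
          ((YY F v T f X z1).ncard : ℝ) * (Nat.card (U × U) : ℝ) ^ Module.finrank F X := by
        exact_mod_cast hext
      calc ((YY F v T f W z).ncard : ℝ) * (Nat.card (U × U) : ℝ) ^ Module.finrank F W ≤ _ := hext'
        _ ≤ Real.exp (GG F v N (xx tau) (kk L) (bb tau L) X) * ((Av F v T f).ncard : ℝ) :=
            hstep z1
        _ ≤ Real.exp (GG F v N (xx tau) (kk L) (bb tau L) W) * ((Av F v T f).ncard : ℝ) := by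
            apply mul_le_mul_of_nonneg_right _ (by positivity)
            exact Real.exp_le_exp.mpr (hXmin W le_rfl)
  -- positivity
  have hpos := (hAT F V (U × U) ι v N N f (xx tau) (kk L) (bb tau L) hx0.le hb0.le
    (by rw [hcardE]; exact hkE) (Finset.Subset.refl N) hN
    (fun T' hT' => hSP T' hT'.1)).1
  have hne : (Av F v N f).Nonempty := by
    rw [← Set.ncard_pos (Set.toFinite _)]
    exact hpos
  obtain ⟨y, hy⟩ := hne
  exact ⟨y, hy⟩

end CE
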