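import Pool.Agent.H49.CE.Targets

set_option autoImplicit false

noncomputable section

namespace CE

open scoped Classical

/-- The numerical comparison used to combine Theorems A and B. -/
theorem C1_num (q c κ : ℕ) (hq2 : 2 ≤ q) (hκ : κ = 24 * c + 146) (tau : ℝ)
    (htau : tau = 4 * ((q : ℝ) ^ c + 1)) :
    4 ≤ tau ∧ (10 : ℝ) ^ 22 * tau ^ 24 ≤ (q : ℝ) ^ κ := by
  have hq2' : (2 : ℝ) ≤ q := by exact_mod_cast hq2
  have hqc : (1 : ℝ) ≤ (q : ℝ) ^ c := one_le_pow₀ (by linarith)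
  have htau4 : 4 ≤ tau := by rw [htau]; linarith
  have htaule : tau ≤ (q : ℝ) ^ (c + 3) := by
    rw [htau, pow_add]
    have : (8 : ℝ) ≤ (q : ℝ) ^ 3 := by
      calc (8 : ℝ) = 2 ^ 3 := by norm_num
        _ ≤ (q : ℝ) ^ 3 := by gcongr
    nlinarith
  refine ⟨htau4, ?_⟩
  have h2 : (10 : ℝ) ^ 22 ≤ (q : ℝ) ^ 74 := by
    calc (10 : ℝ) ^ 22 ≤ 2 ^ 74 := by norm_num
      _ ≤ (q : ℝ) ^ 74 := by gcongr
  have h3 : tau ^ 24 ≤ (q : ℝ) ^ ((c + 3) * 24) := by
    calc tau ^ 24 ≤ ((q : ℝ) ^ (c + 3)) ^ 24 :=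
          pow_le_pow_left₀ (by linarith) htaule 24
      _ = (q : ℝ) ^ ((c + 3) * 24) := by rw [← pow_mul]
  have h4 : κ = 74 + (c + 3) * 24 := by omega
  rw [h4, pow_add]
  exact mul_le_mul h2 h3 (by positivity) (by positivity)

theorem C1_card (F : Type) [Field F] [Fintype F] (κ : ℕ) :
    (Nat.card (Fin κ → F) : ℝ) = (Fintype.card F : ℝ) ^ κ := by
  rw [Nat.card_eq_fintype_card, Fintype.card_fun, Fintype.card_fin]
  push_cast
  rfl

theorem C1_equiv (F : Type) [Field F] (κ : ℕ) :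
    Nonempty (((Fin κ → F) × (Fin κ → F)) ≃ₗ[F] (Fin (2 * κ) → F)) := by
  refine ⟨LinearEquiv.ofFinrankEq _ _ ?_⟩
  rw [Module.finrank_prod, Module.finrank_fin_fun, Module.finrank_fin_fun]
  omega

/-- Theorems A and B give the final statement. -/
theorem C1 (hA : T_A) (hB : T_B) : T_FINAL := by
  intro m hm
  obtain ⟨c, hc⟩ := hA m hm
  obtain ⟨κ, hκ⟩ : ∃ κ : ℕ, κ = 24 * c + 146 := ⟨_, rfl⟩
  refine ⟨2 * κ, ?_⟩
  intro F _ _ n S h0 hs hmin
  have hd := hc F n S h0 hs hmin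
  have hq2 : 2 ≤ Fintype.card F := Fintype.one_lt_card
  obtain ⟨tau, htau⟩ : ∃ t : ℝ, t = 4 * ((Fintype.card F : ℝ) ^ c + 1) := ⟨_, rfl⟩
  obtain ⟨htau4, hnum⟩ := C1_num (Fintype.card F) c κ hq2 hκ tau htau
  have hcard : (10 : ℝ) ^ 22 * tau ^ 24 ≤ (Nat.card (Fin κ → F) : ℝ) := by
    rw [C1_card F κ]
    exact hnum
  obtain ⟨y, hy⟩ := hB F (Fin n → F) (Fin κ → F) (Fin n → F) id S (fun _ => 0) tau htau4 hcard
    (fun i hi => h0 i hi) (by
      intro X hX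
      have h1 := hd X
      have hpos : 0 < Module.finrank F X := by
        rw [Nat.pos_iff_ne_zero]
        intro h
        exact hX (Submodule.finrank_eq_zero.mp h)
      have h2 : ((S.filter (fun v => v ∈ X)).card : ℝ)
          ≤ (Fintype.card F : ℝ) ^ c * (Module.finrank F X : ℝ) := by
        exact_mod_cast h1
      have h3 : (0 : ℝ) < Module.finrank F X := by exact_mod_cast hpos
      have h4 : (S.filter (fun i => id i ∈ X)) = (S.filter (fun v => v ∈ X)) := rfl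
      rw [h4]
      have h5 : tau / 4 = (Fintype.card F : ℝ) ^ c + 1 := by rw [htau]; ring
      rw [h5]
      nlinarith)
  obtain ⟨e⟩ := C1_equiv F κ
  refine ⟨e.toLinearMap ∘ₗ y, ?_⟩
  intro v hv h
  apply hy v hv
  have h1 : e (y v) = 0 := h
  exact (LinearEquiv.map_eq_zero_iff e).mp h1

end CE
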