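import Mathlib

/-!
# MP_70000a_co (critical exponents), definitions.  Mathematics: team-store `H49_CE_blueprint.md`.
-/

set_option autoImplicit false

noncomputable section

namespace CE

open scoped Classical

/-! ## Part A : cones, pairs, cliques, pyramids -/

section A

variable (F : Type) [Field F] {V : Type} [AddCommGroup V] [Module F V]

/-- A finite set of nonzero vectors closed under nonzero scalars. -/
def IsCone (D : Finset V) : Prop := (0 : V) ∉ D ∧ ∀ c : F, c ≠ 0 → ∀ v ∈ D, c • v ∈ D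

/-- Number of ordered pairs of `C` whose difference lies in `D`. -/
def EE {V : Type} [AddCommGroup V] (C D : Finset V) : ℕ :=
  ((C ×ˢ C).filter (fun p => p.1 - p.2 ∈ D)).card

/-- Neighbours of `y`. -/
def nbr {V : Type} [AddCommGroup V] (C D : Finset V) (y : V) : Finset V :=
  C.filter (fun x => x - y ∈ D)

/-- Image of `C` in `V / F g`. -/
def Cq (g : V) (C : Finset V) : Finset (V ⧸ Submodule.span F {g}) :=
  C.image (Submodule.span F {g}).mkQ

/-- Image of `D` in `V / F g`, without zero. -/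
def Dq (g : V) (D : Finset V) : Finset (V ⧸ Submodule.span F {g}) :=
  (D.image (Submodule.span F {g}).mkQ).erase 0

/-- The points of `V / F g` with at least two preimages in `C`. -/
def C2 (g : V) (C : Finset V) : Finset (V ⧸ Submodule.span F {g}) :=
  (Cq F g C).filter (fun l => 2 ≤ (C.filter (fun x => (Submodule.span F {g}).mkQ x = l)).card)

/-- `C` contains a clique on `r` points modulo a space spanned by elements of `D`. -/
def Clique (r : ℕ) (C D : Finset V) : Prop :=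
  ∃ (Z0 : Finset V) (p : Fin r → V), Z0 ⊆ D ∧ (∀ i, p i ∈ C) ∧
    (∀ c : Fin r → F, ∑ i, c i = 0 →
      ∑ i, c i • p i ∈ Submodule.span F (Z0 : Set V) → c = 0) ∧
    (∀ i j, i ≠ j → ∃ d ∈ D, p i - p j - d ∈ Submodule.span F (Z0 : Set V))

/-- `C` contains `n` points with `a` further lifts each (a pyramid). -/
def Pyr (a n : ℕ) (C D : Finset V) : Prop :=
  ∃ (Z0 : Finset V) (G : Submodule F V) (p : Fin n → V) (x : Fin n → Fin a → V),
    Z0 ⊆ D ∧ Submodule.span F (Z0 : Set V) ≤ G ∧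
    Module.finrank F G ≤ Module.finrank F (Submodule.span F (Z0 : Set V)) + a ∧
    (∀ j, p j ∈ C) ∧ (∀ j i, x j i ∈ C) ∧ (∀ j i, x j i - p j ∈ G) ∧
    (∀ j, ∀ c : Fin a → F,
      ∑ i, c i • (x j i - p j) ∈ Submodule.span F (Z0 : Set V) → c = 0) ∧
    (∀ j j', p j - p j' ∈ G → j = j')

/-- Triples `(x, x', y)` of `C`, with `x ≠ x'` on one line parallel to `g`, both adjacent to `y`. -/
def Tri (g : V) (C D : Finset V) : ℕ :=
  ((C ×ˢ (C ×ˢ C)).filter (fun p => p.1 ≠ p.2.1 ∧ p.1 - p.2.1 ∈ Submodule.span F {g} ∧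
    p.1 - p.2.2 ∈ D ∧ p.2.1 - p.2.2 ∈ D)).card

/-- Ordered pairs of distinct points of `C` on a line parallel to `g`. -/
def Eg (g : V) (C : Finset V) : ℕ :=
  ((C ×ˢ C).filter (fun p => p.1 ≠ p.2 ∧ p.1 - p.2 ∈ Submodule.span F {g})).card

/-- A `K_m` minor of the cone `D`. -/
def KM (m : ℕ) (D : Finset V) : Prop :=
  ∃ (Z0 : Finset V) (b : Fin m → V), Z0 ⊆ D ∧
    (∀ c : Fin m → F, ∑ i, c i = 0 →
      ∑ i, c i • b i ∈ Submodule.span F (Z0 : Set V) → c = 0) ∧
    (∀ i j, i ≠ j → ∃ d ∈ D, b i - b j - d ∈ Submodule.span F (Z0 : Set V))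

/-- The cone over `S`. -/
def cone [Fintype F] (S : Finset V) : Finset V :=
  ((Finset.univ.filter (fun c : F => c ≠ 0)) ×ˢ S).image (fun p => p.1 • p.2)

end A

/-! ## Part B : avoidance -/

section B

variable (F : Type) [Field F] {V ι : Type} [AddCommGroup V] [Module F V]

/-- The family `(v i)_{i ∈ J}` is linearly independent modulo `W`. -/
def Ind (v : ι → V) (W : Submodule F V) (J : Finset ι) : Prop :=
  ∀ c : ι → F, ∑ i ∈ J, c i • v i ∈ W → ∀ i ∈ J, c i = 0

/-- The span of `(v i)_{i ∈ J}`. -/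
def sp (v : ι → V) (J : Finset ι) : Submodule F V := Submodule.span F (v '' (J : Set ι))

/-- `Z_W = ∑ x^|J|` over the `J ⊆ N` independent modulo `W`. -/
def ZZ (v : ι → V) (N : Finset ι) (x : ℝ) (W : Submodule F V) : ℝ :=
  ∑ J ∈ N.powerset.filter (Ind F v W), x ^ J.card

/-- The potential `G(W) = kap * dim W - b * log (Z_0 / Z_W)`. -/
def GG (v : ι → V) (N : Finset ι) (x kap b : ℝ) (W : Submodule F V) : ℝ :=
  kap * (Module.finrank F W : ℝ) - b * (Real.log (ZZ F v N x ⊥) - Real.log (ZZ F v N x W))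

/-- The family `𝔅(W; j, m)` of subsets of `N` which are independent, disjoint from `W`, have rank `j` modulo `W`,
size `j + m`, and are coloop free modulo `W`. -/
def BB (v : ι → V) (N : Finset ι) (W : Submodule F V) (j m : ℕ) : Finset (Finset ι) :=
  N.powerset.filter (fun B => Ind F v ⊥ B ∧ (∀ i ∈ B, v i ∉ W) ∧ B.card = j + m ∧
    Module.finrank F (W ⊔ sp F v B : Submodule F V) = Module.finrank F W + j ∧
    ∀ i ∈ B, v i ∈ W ⊔ sp F v (B.erase i))

variable {E : Type} [AddCommGroup E] [Module F E]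

/-- The linear maps avoiding the targets `f i`, `i ∈ T`. -/
def Av (v : ι → V) (T : Finset ι) (f : ι → E) : Set (V →ₗ[F] E) :=
  {y | ∀ i ∈ T, y (v i) ≠ f i}

/-- The avoiding maps which agree with `z` on `W`. -/
def YY (v : ι → V) (T : Finset ι) (f : ι → E) (W : Submodule F V) (z : V →ₗ[F] E) :
    Set (V →ₗ[F] E) :=
  {y | y ∈ Av F v T f ∧ ∀ w ∈ W, y w = z w}

/-- `T_Λ(y)`. -/
def TL (v : ι → V) (T : Finset ι) (f : ι → E) (Lam : Submodule F E) (y : V →ₗ[F] E) : Finset ι :=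
  T.filter (fun i => y (v i) - f i ∈ Lam)

/-- Property (SP) for one `T`. -/
def SP (v : ι → V) (N : Finset ι) (x kap b : ℝ) (f : ι → E) (T : Finset ι) : Prop :=
  ∀ (W : Submodule F V) (z : V →ₗ[F] E),
    ((YY F v T f W z).ncard : ℝ) * (Nat.card E : ℝ) ^ (Module.finrank F W) ≤
      Real.exp (GG F v N x kap b W) * ((Av F v T f).ncard : ℝ)

/-- The hypothesis (HF_d). -/
def HF (v : ι → V) (N : Finset ι) (x d : ℝ) : Prop :=
  ∀ W : Submodule F V,
    ZZ F v N x ⊥ ≤ Real.exp (d * (Module.finrank F W : ℝ)) * ZZ F v N x W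

/-- Density bound above `W`. -/
def Dens (v : ι → V) (N : Finset ι) (tau : ℝ) (W : Submodule F V) : Prop :=
  ∀ Y : Submodule F V, W ≤ Y →
    ((N.filter (fun i => v i ∈ Y ∧ v i ∉ W)).card : ℝ) ≤
      tau * ((Module.finrank F Y : ℝ) - (Module.finrank F W : ℝ))

/-- The constants. -/
def dd (tau : ℝ) : ℝ := 1 / (128 * tau ^ 2)
def xx (tau : ℝ) : ℝ := 1 / (32 * tau ^ 3)
def kk (L : ℝ) : ℝ := Real.log L / 2
def bb (tau L : ℝ) : ℝ := kk L / (2 * dd tau)

end B

end CE
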