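import Pool.Agent.H49.CE.B11
import Pool.Agent.H49.CE.B12
import Pool.Agent.H49.CE.C1
import Pool.Agent.H11.CE.A3
import Pool.Agent.H11.CE.B4
import Pool.Agent.H11.CE.B5
import Pool.Agent.H11.CE.B6
import Pool.Agent.H11.CE.B9
import Pool.Agent.H20.CE.A6
import Pool.Agent.H20.CE.A11
import Pool.Agent.H20.CE.A12
import Pool.Agent.H24.CE.A1
import Pool.Agent.H24.CE.B1
import Pool.Agent.H24.CE.B2
import Pool.Agent.H26.CE.B8
import Pool.Agent.H29.CE.B7
import Pool.Agent.H29.CE.B13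
import Pool.Agent.H36.CE.A8
import Pool.Agent.H36.CE.A9
import Pool.Agent.H36.CE.A13
import Pool.Agent.H87.CE.A4
import Pool.Agent.H87.CE.A5
import Pool.Agent.H87.CE.A7
import Pool.Agent.H87.CE.A10
import Pool.Agent.H94.CE.B3
import Pool.Agent.H94.CE.B10

/-!
# MP_70000a_co : assembly of Theorems A and B.
-/

set_option autoImplicit false

namespace CE

open Pool.Agent

theorem final_DICH : T_DICH := H87.CEx.a5 CE.H11.loss H87.CEx.a4

theorem final_PAIRS : T_PAIRS :=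
  H36.CEM.pairs H24.CE.t_LC H24.CE.t_LP H24.CE.t_LP2 final_DICH FUN H87.CEx.a7

theorem final_A : T_A :=
  H36.CEM.partA final_PAIRS (H36.CEM.initStep H24.CE.t_KML) H87.CEx.a10_FC FP H87.CEx.a10_TR
    H87.CEx.a10_CONE FM

theorem final_AT : T_AT := CE.H29.at_of_z1 H24.CE.t_Z1

theorem final_LARGE : T_LARGE :=
  b8 H24.CE.t_Z1 (CE.B3_main H24.CE.t_Z1 H24.CE.t_Z2) CE.H11.ex CE.H11.ext final_AT

theorem final_B : T_B :=
  CE.H29.b_of_main (B12 (H24.CE.t_DEN H24.CE.t_Z1 H24.CE.t_Z3) (B11 CE.H11.kempe final_LARGE CE.H11.bad CE.H11.choice B10_main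
    H24.CE.t_Z1) final_AT H24.CE.t_Z1) H24.CE.t_Z1

end CE
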