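import Pool.Agent.H99.CE.Targets

set_option autoImplicit false

open MeasureTheory ProbabilityTheory Filter Topology
open scoped ENNReal
open Pool.Agent.H95 Pool.Agent.H95.Cop Pool.Agent.H96.Cop Pool.Agent.H99.CE

namespace Pool.Agent.H49.CE

private theorem two_pow_bd {α : ℝ} (h0 : 0 < α) (h1 : α ≤ 1 / 2 ^ 50) :
    α ^ (-(2 * α)) ≤ 2 := by
  set q : ℝ := Real.sqrt α with hq
  have hq0 : 0 < q := Real.sqrt_pos.2 h0
  have hqq : q * q = α := Real.mul_self_sqrt h0.le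
  have hq1 : q ≤ 1 / 2 ^ 25 := by
    rw [hq]
    apply Real.sqrt_le_iff.2
    constructor
    · positivity
    · calc α ≤ 1 / 2 ^ 50 := h1
        _ = (1 / 2 ^ 25 : ℝ) ^ 2 := by norm_num
  have hlog : Real.log α = 2 * Real.log q := by
    rw [← hqq, Real.log_mul hq0.ne' hq0.ne']; ring
  have h2 : -Real.log q ≤ 1 / q := by
    have h3 := Real.log_le_sub_one_of_pos (show (0 : ℝ) < 1 / q by positivity)
    rw [one_div, Real.log_inv] at h3
    rw [one_div]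
    linarith
  have h4 : Real.log α * -(2 * α) ≤ Real.log 2 := by
    have h5 : Real.log α * -(2 * α) = 4 * (q * q) * (-Real.log q) := by
      rw [hlog, ← hqq]; ring
    have h6 : 4 * (q * q) * (-Real.log q) ≤ 4 * (q * q) * (1 / q) :=
      mul_le_mul_of_nonneg_left h2 (by positivity)
    have h7 : 4 * (q * q) * (1 / q) = 4 * q := by field_simp
    have h8 : (4 : ℝ) * q ≤ 1 / 2 := by
      calc (4 : ℝ) * q ≤ 4 * (1 / 2 ^ 25) := by linarith
        _ ≤ 1 / 2 := by norm_num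
    have h9 := Real.log_two_gt_d9
    linarith
  rw [Real.rpow_def_of_pos h0]
  calc Real.exp (Real.log α * -(2 * α)) ≤ Real.exp (Real.log 2) := Real.exp_le_exp.2 h4
    _ = 2 := Real.exp_log (by norm_num)

private theorem pow_small {α θ : ℝ} (h0 : 0 < α) (h1 : α ≤ 1 / 2 ^ 50) (h2 : 1 - α ≤ θ) :
    α ^ θ ≤ 2 * α ∧ (α ^ 2) ^ θ ≤ 2 * α ^ 2 := by
  have hα1 : α ≤ 1 := h1.trans (by norm_num)
  have hb := two_pow_bd h0 h1
  constructor
  · calc α ^ θ ≤ α ^ (1 + -(2 * α)) := Real.rpow_le_rpow_of_exponent_ge h0 hα1 (by linarith)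
      _ = α * α ^ (-(2 * α)) := by rw [Real.rpow_add h0, Real.rpow_one]
      _ ≤ α * 2 := mul_le_mul_of_nonneg_left hb h0.le
      _ = 2 * α := by ring
  · have h3 : (α ^ 2 : ℝ) ^ θ = α ^ (2 * θ) := by
      rw [← Real.rpow_natCast α 2, ← Real.rpow_mul h0.le]
      norm_num
    rw [h3]
    calc α ^ (2 * θ) ≤ α ^ ((2 : ℝ) + -(2 * α)) :=
          Real.rpow_le_rpow_of_exponent_ge h0 hα1 (by linarith)
      _ = α ^ 2 * α ^ (-(2 * α)) := by
          rw [Real.rpow_add h0, Real.rpow_two]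
      _ ≤ α ^ 2 * 2 := mul_le_mul_of_nonneg_left hb (by positivity)
      _ = 2 * α ^ 2 := by ring

private theorem const_pow {C θ : ℝ} (hC : 1 ≤ C) (h1 : θ < 1) : C ^ θ ≤ C := by
  calc C ^ θ ≤ C ^ (1 : ℝ) := Real.rpow_le_rpow_of_exponent_le hC h1.le
    _ = C := Real.rpow_one C

private theorem holder_sum {ι : Type} (S : Finset ι) (f : ι → ℝ) (hf : ∀ i ∈ S, 0 ≤ f i) {θ : ℝ}
    (h0 : 0 < θ) (h1 : θ < 1) :
    ∑ i ∈ S, f i ^ θ ≤ (S.card : ℝ) ^ (1 - θ) * (∑ i ∈ S, f i) ^ θ := by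
  have hp : (1 : ℝ) ≤ 1 / θ := by
    rw [le_div_iff₀ h0]; linarith
  have h2 := Real.rpow_sum_le_const_mul_sum_rpow_of_nonneg S hp
    (f := fun i => f i ^ θ) (fun i hi => Real.rpow_nonneg (hf i hi) _)
  have h3 : ∑ i ∈ S, (f i ^ θ) ^ (1 / θ) = ∑ i ∈ S, f i := by
    refine Finset.sum_congr rfl fun i hi => ?_
    rw [← Real.rpow_mul (hf i hi), mul_one_div_cancel h0.ne', Real.rpow_one]
  rw [h3] at h2
  have hs0 : 0 ≤ ∑ i ∈ S, f i ^ θ := Finset.sum_nonneg fun i hi => Real.rpow_nonneg (hf i hi) _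
  have h4 : ((∑ i ∈ S, f i ^ θ) ^ (1 / θ)) ^ θ ≤
      ((S.card : ℝ) ^ (1 / θ - 1) * ∑ i ∈ S, f i) ^ θ :=
    Real.rpow_le_rpow (Real.rpow_nonneg hs0 _) h2 h0.le
  rw [← Real.rpow_mul hs0, one_div_mul_cancel h0.ne', Real.rpow_one,
    Real.mul_rpow (by positivity) (Finset.sum_nonneg hf), ← Real.rpow_mul (by positivity)] at h4
  have h5 : (1 / θ - 1) * θ = 1 - θ := by field_simp
  rwa [h5] at h4

private theorem geo {y : ℝ} (h0 : 0 ≤ y) (h1 : y ≤ 1 / 2000) (R : ℕ) :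
    ∑ i ∈ Finset.range R, (3 + (i : ℝ)) * y ^ i ≤ 4 - (31 / 10 + 11 / 10 * (R : ℝ)) * y ^ R := by
  induction R with
  | zero => simp; norm_num
  | succ R ih =>
    rw [Finset.sum_range_succ]
    have hyR : 0 ≤ y ^ R := pow_nonneg h0 R
    have hR : (0 : ℝ) ≤ R := Nat.cast_nonneg R
    have h2 : (31 / 10 + 11 / 10 * ((R : ℝ) + 1)) * y ≤ (31 / 10 + 11 / 10 * ((R : ℝ) + 1)) *
      (1 / 2000) := mul_le_mul_of_nonneg_left h1 (by positivity)
    have h3 : 0 ≤ (31 / 10 + 11 / 10 * (R : ℝ)) - (31 / 10 + 11 / 10 * ((R : ℝ) + 1)) * y -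
      (3 + (R : ℝ)) := by linarith
    have h4 := mul_nonneg h3 hyR
    push_cast
    rw [pow_succ]
    linarith

/-- one block -/
private theorem block (v : ℕ → ℝ) (hv : ∀ a, 0 ≤ v a) {m α θ s : ℝ} {n0 : ℕ} (hα : 0 < α)
    (hθ0 : 0 < θ) (hθ1 : θ < 1) (hs : (1 + α) * θ = 1 + s) (hs0 : 0 < s) (hm : 0 < m)
    (hn : 2 ≤ n0)
    (H1 : ∀ n, ∑ a ∈ Finset.range n, v a * (n0 : ℝ) ^ (α * a / n0) ≤ m) (i : ℕ) :
    ∑ a ∈ Finset.Ico ((i + 1) * n0) ((i + 1 + 1) * n0), (2 + ((a / n0 : ℕ) : ℝ)) * v a ^ θ ≤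
      m ^ θ * ((3 + (i : ℝ)) * ((n0 : ℝ) ^ (-(α * θ))) ^ i) := by
  have hn0 : (0 : ℝ) < n0 := by exact_mod_cast (by omega : 0 < n0)
  have hn1 : (1 : ℝ) ≤ n0 := by exact_mod_cast (by omega : 1 ≤ n0)
  have hdiv : ∀ a ∈ Finset.Ico ((i + 1) * n0) ((i + 1 + 1) * n0), a / n0 = i + 1 := by
    intro a ha
    rw [Finset.mem_Ico] at ha
    exact Nat.div_eq_of_lt_le ha.1 ha.2
  have h1 : ∑ a ∈ Finset.Ico ((i + 1) * n0) ((i + 1 + 1) * n0), (2 + ((a / n0 : ℕ) : ℝ)) * v a ^ θ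
      = (3 + (i : ℝ)) * ∑ a ∈ Finset.Ico ((i + 1) * n0) ((i + 1 + 1) * n0), v a ^ θ := by
    rw [Finset.mul_sum]
    refine Finset.sum_congr rfl fun a ha => ?_
    rw [hdiv a ha]
    push_cast
    ring
  have h2 := holder_sum (Finset.Ico ((i + 1) * n0) ((i + 1 + 1) * n0)) v (fun a _ => hv a) hθ0 hθ1
  have hcard : (Finset.Ico ((i + 1) * n0) ((i + 1 + 1) * n0)).card = n0 := by
    rw [Nat.card_Ico, add_mul (i + 1) 1 n0]; omega
  rw [hcard] at h2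
  have h3 : (∑ a ∈ Finset.Ico ((i + 1) * n0) ((i + 1 + 1) * n0), v a) *
      (n0 : ℝ) ^ (α * ((i : ℝ) + 1)) ≤ m := by
    calc (∑ a ∈ Finset.Ico ((i + 1) * n0) ((i + 1 + 1) * n0), v a) *
        (n0 : ℝ) ^ (α * ((i : ℝ) + 1))
        = ∑ a ∈ Finset.Ico ((i + 1) * n0) ((i + 1 + 1) * n0), v a *
          (n0 : ℝ) ^ (α * ((i : ℝ) + 1)) := by rw [Finset.sum_mul]
      _ ≤ ∑ a ∈ Finset.Ico ((i + 1) * n0) ((i + 1 + 1) * n0), v a *
          (n0 : ℝ) ^ (α * a / n0) := by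
          refine Finset.sum_le_sum fun a ha => ?_
          refine mul_le_mul_of_nonneg_left ?_ (hv a)
          apply Real.rpow_le_rpow_of_exponent_le hn1
          rw [Finset.mem_Ico] at ha
          have h5 : ((i : ℝ) + 1) * n0 ≤ a := by exact_mod_cast ha.1
          rw [le_div_iff₀ hn0]
          have h6 := mul_le_mul_of_nonneg_left h5 hα.le
          linarith
      _ ≤ ∑ a ∈ Finset.range ((i + 1 + 1) * n0), v a * (n0 : ℝ) ^ (α * a / n0) := by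
          refine Finset.sum_le_sum_of_subset_of_nonneg ?_ ?_
          · intro a ha
            rw [Finset.mem_Ico] at ha
            exact Finset.mem_range.2 ha.2
          · intro a _ _
            exact mul_nonneg (hv a) (Real.rpow_nonneg hn0.le _)
      _ ≤ m := H1 _
  have hsum0 : 0 ≤ ∑ a ∈ Finset.Ico ((i + 1) * n0) ((i + 1 + 1) * n0), v a :=
    Finset.sum_nonneg fun a _ => hv a
  have h4 : (∑ a ∈ Finset.Ico ((i + 1) * n0) ((i + 1 + 1) * n0), v a) ≤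
      m * (n0 : ℝ) ^ (-(α * ((i : ℝ) + 1))) := by
    rw [Real.rpow_neg hn0.le, ← div_eq_mul_inv, le_div_iff₀ (Real.rpow_pos_of_pos hn0 _)]
    exact h3
  have h5 : (∑ a ∈ Finset.Ico ((i + 1) * n0) ((i + 1 + 1) * n0), v a) ^ θ ≤
      m ^ θ * (n0 : ℝ) ^ (-(α * ((i : ℝ) + 1)) * θ) := by
    calc (∑ a ∈ Finset.Ico ((i + 1) * n0) ((i + 1 + 1) * n0), v a) ^ θ
        ≤ (m * (n0 : ℝ) ^ (-(α * ((i : ℝ) + 1)))) ^ θ := Real.rpow_le_rpow hsum0 h4 hθ0.le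
      _ = m ^ θ * (n0 : ℝ) ^ (-(α * ((i : ℝ) + 1)) * θ) := by
          rw [Real.mul_rpow hm.le (Real.rpow_nonneg hn0.le _), ← Real.rpow_mul hn0.le]
  have h6 : (n0 : ℝ) ^ (1 - θ) * (n0 : ℝ) ^ (-(α * ((i : ℝ) + 1)) * θ) ≤
      ((n0 : ℝ) ^ (-(α * θ))) ^ i := by
    rw [← Real.rpow_add hn0, ← Real.rpow_natCast, ← Real.rpow_mul hn0.le]
    apply Real.rpow_le_rpow_of_exponent_le hn1
    have : 1 - θ + -(α * ((i : ℝ) + 1)) * θ = -s + -(α * θ) * i := by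
      have h7 : α * θ = 1 + s - θ := by linarith
      calc 1 - θ + -(α * ((i : ℝ) + 1)) * θ = 1 - θ - (α * θ) * (i : ℝ) - α * θ := by ring
        _ = -s + -(α * θ) * i := by rw [h7]; ring
    rw [this]
    linarith
  rw [h1]
  calc (3 + (i : ℝ)) * ∑ a ∈ Finset.Ico ((i + 1) * n0) ((i + 1 + 1) * n0), v a ^ θ
      ≤ (3 + (i : ℝ)) * ((n0 : ℝ) ^ (1 - θ) *
        (m ^ θ * (n0 : ℝ) ^ (-(α * ((i : ℝ) + 1)) * θ))) := by
        refine mul_le_mul_of_nonneg_left (h2.trans ?_) (by positivity)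
        exact mul_le_mul_of_nonneg_left h5 (Real.rpow_nonneg hn0.le _)
    _ = (3 + (i : ℝ)) * m ^ θ * ((n0 : ℝ) ^ (1 - θ) *
        (n0 : ℝ) ^ (-(α * ((i : ℝ) + 1)) * θ)) := by ring
    _ ≤ (3 + (i : ℝ)) * m ^ θ * ((n0 : ℝ) ^ (-(α * θ))) ^ i := by
        refine mul_le_mul_of_nonneg_left h6 ?_
        have := Real.rpow_nonneg hm.le θ
        positivity
    _ = m ^ θ * ((3 + (i : ℝ)) * ((n0 : ℝ) ^ (-(α * θ))) ^ i) := by ring

private theorem core (v : ℕ → ℝ) (hv : ∀ a, 0 ≤ v a) {m Z α θ s δ : ℝ} {n0 : ℕ} (hα : 0 < α)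
    (hα1 : α ≤ 1 / 2 ^ 50) (hδ1 : δ ≤ 1 / 20) (hθα : 1 - α ≤ θ) (hθ1 : θ < 1)
    (hs : (1 + α) * θ = 1 + s) (hs0 : 0 < s) (hZ : 0 < Z) (hm : 0 < m) (hmZ : m ≤ 4 * α * Z)
    (hn : 2 ≤ n0) (hy : (n0 : ℝ) ^ (-(α * θ)) ≤ δ / 100)
    (H1 : ∀ n, ∑ a ∈ Finset.range n, v a * (n0 : ℝ) ^ (α * a / n0) ≤ m)
    (H2 : v 0 ≤ Z * (6 * α))
    (H3 : ∀ a : ℕ, 1 ≤ a → v a ≤ Z * (2 ^ 21 * (α ^ 2 * (1 + (a : ℝ)) ^ (-(1 + α))))) (L : ℕ) :
    ∑ a ∈ Finset.range L, (2 + ((a / n0 : ℕ) : ℝ)) * v a ^ θ ≤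
      Z ^ θ * (64 * α + 2 ^ 23 * α ^ 2 * (1 + Real.log n0)) := by
  have hn0 : (0 : ℝ) < n0 := by exact_mod_cast (by omega : 0 < n0)
  have hn1 : (1 : ℝ) ≤ n0 := by exact_mod_cast (by omega : 1 ≤ n0)
  have hα1' : α ≤ 1 / 2 := hα1.trans (by norm_num)
  have hθ0 : 0 < θ := by linarith
  obtain ⟨hp1, hp2⟩ := pow_small hα hα1 hθα
  have hZθ : 0 < Z ^ θ := Real.rpow_pos_of_pos hZ θ
  -- the blocks
  have hblocks : ∀ R : ℕ, ∑ a ∈ Finset.range ((R + 1) * n0), (2 + ((a / n0 : ℕ) : ℝ)) * v a ^ θ ≤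
      ∑ a ∈ Finset.range n0, (2 + ((a / n0 : ℕ) : ℝ)) * v a ^ θ +
        m ^ θ * ∑ i ∈ Finset.range R, (3 + (i : ℝ)) * ((n0 : ℝ) ^ (-(α * θ))) ^ i := by
    intro R
    induction R with
    | zero => simp
    | succ R ih =>
      have h1 : ∑ a ∈ Finset.range ((R + 1 + 1) * n0), (2 + ((a / n0 : ℕ) : ℝ)) * v a ^ θ =
          ∑ a ∈ Finset.range ((R + 1) * n0), (2 + ((a / n0 : ℕ) : ℝ)) * v a ^ θ +
          ∑ a ∈ Finset.Ico ((R + 1) * n0) ((R + 1 + 1) * n0),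
            (2 + ((a / n0 : ℕ) : ℝ)) * v a ^ θ := by
        rw [Finset.range_eq_Ico, Finset.range_eq_Ico,
          Finset.sum_Ico_consecutive _ (Nat.zero_le _)
            (Nat.mul_le_mul_right _ (Nat.le_succ _))]
      have h2 := block v hv hα hθ0 hθ1 hs hs0 hm hn H1 R
      rw [h1, Finset.sum_range_succ, mul_add]
      linarith
  -- the first block
  have hfirst : ∑ a ∈ Finset.range n0, (2 + ((a / n0 : ℕ) : ℝ)) * v a ^ θ ≤
      Z ^ θ * (24 * α + 2 ^ 23 * α ^ 2 * (1 + Real.log n0)) := by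
    have h1 : ∑ a ∈ Finset.range n0, (2 + ((a / n0 : ℕ) : ℝ)) * v a ^ θ =
        2 * ∑ a ∈ Finset.range n0, v a ^ θ := by
      rw [Finset.mul_sum]
      refine Finset.sum_congr rfl fun a ha => ?_
      rw [Nat.div_eq_of_lt (Finset.mem_range.1 ha)]
      push_cast
      ring
    have hone : ∀ a ∈ Finset.range n0, v a ^ θ ≤
        (if a = 0 then Z ^ θ * (12 * α) else 0) +
          Z ^ θ * (2 ^ 22 * α ^ 2) * ((a : ℝ) + 1)⁻¹ := by
      intro a _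
      rcases Nat.eq_zero_or_pos a with rfl | ha
      · rw [if_pos rfl]
        have h2 : v 0 ^ θ ≤ Z ^ θ * (12 * α) := by
          calc v 0 ^ θ ≤ (Z * (6 * α)) ^ θ := Real.rpow_le_rpow (hv 0) H2 hθ0.le
            _ = Z ^ θ * ((6 : ℝ) ^ θ * α ^ θ) := by
                rw [Real.mul_rpow hZ.le (by positivity), Real.mul_rpow (by norm_num) hα.le]
            _ ≤ Z ^ θ * (6 * (2 * α)) := by
                refine mul_le_mul_of_nonneg_left ?_ hZθ.le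
                exact mul_le_mul (const_pow (by norm_num) hθ1) hp1
                  (Real.rpow_nonneg hα.le _) (by norm_num)
            _ = Z ^ θ * (12 * α) := by ring
        have h3 : 0 ≤ Z ^ θ * (2 ^ 22 * α ^ 2) * (((0 : ℕ) : ℝ) + 1)⁻¹ := by positivity
        linarith
      · rw [if_neg ha.ne', zero_add]
        have ha1 : (0 : ℝ) < 1 + (a : ℝ) := by positivity
        have ha2 : (1 : ℝ) ≤ 1 + (a : ℝ) := by
          have : (0 : ℝ) ≤ a := Nat.cast_nonneg a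
          linarith
        have hpw : ((1 + (a : ℝ)) ^ (-(1 + α))) ^ θ ≤ ((a : ℝ) + 1)⁻¹ := by
          rw [← Real.rpow_mul ha1.le]
          have h4 : -(1 + α) * θ = -(1 + s) := by rw [neg_mul, hs]
          rw [h4]
          calc (1 + (a : ℝ)) ^ (-(1 + s)) ≤ (1 + (a : ℝ)) ^ (-1 : ℝ) :=
                Real.rpow_le_rpow_of_exponent_le ha2 (by linarith)
            _ = ((a : ℝ) + 1)⁻¹ := by rw [Real.rpow_neg_one, add_comm]
        calc v a ^ θ ≤ (Z * (2 ^ 21 * (α ^ 2 * (1 + (a : ℝ)) ^ (-(1 + α))))) ^ θ :=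
              Real.rpow_le_rpow (hv a) (H3 a ha) hθ0.le
          _ = Z ^ θ * (((2 : ℝ) ^ 21) ^ θ * ((α ^ 2) ^ θ *
              ((1 + (a : ℝ)) ^ (-(1 + α))) ^ θ)) := by
              rw [Real.mul_rpow hZ.le (by positivity), Real.mul_rpow (by norm_num) (by positivity),
                Real.mul_rpow (by positivity) (by positivity)]
          _ ≤ Z ^ θ * (2 ^ 21 * ((2 * α ^ 2) * ((a : ℝ) + 1)⁻¹)) := by
              refine mul_le_mul_of_nonneg_left ?_ hZθ.le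
              refine mul_le_mul (const_pow (by norm_num) hθ1) ?_ (by positivity) (by norm_num)
              exact mul_le_mul hp2 hpw (by positivity) (by positivity)
          _ = Z ^ θ * (2 ^ 22 * α ^ 2) * ((a : ℝ) + 1)⁻¹ := by ring
    have hharm : ∑ a ∈ Finset.range n0, ((a : ℝ) + 1)⁻¹ ≤ 1 + Real.log n0 := by
      have h5 := harmonic_le_one_add_log n0
      have h6 : ((harmonic n0 : ℚ) : ℝ) = ∑ a ∈ Finset.range n0, ((a : ℝ) + 1)⁻¹ := by
        rw [harmonic]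
        push_cast
        rfl
      rwa [h6] at h5
    have h7 : ∑ a ∈ Finset.range n0, v a ^ θ ≤
        Z ^ θ * (12 * α) + Z ^ θ * (2 ^ 22 * α ^ 2) * (1 + Real.log n0) := by
      calc ∑ a ∈ Finset.range n0, v a ^ θ ≤ ∑ a ∈ Finset.range n0,
            ((if a = 0 then Z ^ θ * (12 * α) else 0) +
              Z ^ θ * (2 ^ 22 * α ^ 2) * ((a : ℝ) + 1)⁻¹) := Finset.sum_le_sum hone
        _ = Z ^ θ * (12 * α) +
            Z ^ θ * (2 ^ 22 * α ^ 2) * ∑ a ∈ Finset.range n0, ((a : ℝ) + 1)⁻¹ := by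
            rw [Finset.sum_add_distrib, ← Finset.mul_sum, Finset.sum_ite_eq',
              if_pos (Finset.mem_range.2 (by omega))]
        _ ≤ _ := by
            have : Z ^ θ * (2 ^ 22 * α ^ 2) * ∑ a ∈ Finset.range n0, ((a : ℝ) + 1)⁻¹ ≤
              Z ^ θ * (2 ^ 22 * α ^ 2) * (1 + Real.log n0) :=
              mul_le_mul_of_nonneg_left hharm (by positivity)
            linarith
    rw [h1]
    calc 2 * ∑ a ∈ Finset.range n0, v a ^ θ ≤
        2 * (Z ^ θ * (12 * α) + Z ^ θ * (2 ^ 22 * α ^ 2) * (1 + Real.log n0)) := by linarith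
      _ = Z ^ θ * (24 * α + 2 ^ 23 * α ^ 2 * (1 + Real.log n0)) := by ring
  -- the powers of m
  have hmθ : m ^ θ ≤ Z ^ θ * (8 * α) := by
    calc m ^ θ ≤ (4 * α * Z) ^ θ := Real.rpow_le_rpow hm.le hmZ hθ0.le
      _ = Z ^ θ * ((4 : ℝ) ^ θ * α ^ θ) := by
          rw [Real.mul_rpow (by positivity) hZ.le, Real.mul_rpow (by norm_num) hα.le]; ring
      _ ≤ Z ^ θ * (4 * (2 * α)) := by
          refine mul_le_mul_of_nonneg_left ?_ hZθ.le
          exact mul_le_mul (const_pow (by norm_num) hθ1) hp1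
            (Real.rpow_nonneg hα.le _) (by norm_num)
      _ = Z ^ θ * (8 * α) := by ring
  have hy0 : 0 ≤ (n0 : ℝ) ^ (-(α * θ)) := Real.rpow_nonneg hn0.le _
  have hy1 : (n0 : ℝ) ^ (-(α * θ)) ≤ 1 / 2000 := by
    calc (n0 : ℝ) ^ (-(α * θ)) ≤ δ / 100 := hy
      _ ≤ 1 / 2000 := by linarith
  have hgeo := geo hy0 hy1 L
  have hgeo' : ∑ i ∈ Finset.range L, (3 + (i : ℝ)) * ((n0 : ℝ) ^ (-(α * θ))) ^ i ≤ 4 := by
    have : 0 ≤ (31 / 10 + 11 / 10 * (L : ℝ)) * ((n0 : ℝ) ^ (-(α * θ))) ^ L := by positivity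
    linarith
  have hle : ∑ a ∈ Finset.range L, (2 + ((a / n0 : ℕ) : ℝ)) * v a ^ θ ≤
      ∑ a ∈ Finset.range ((L + 1) * n0), (2 + ((a / n0 : ℕ) : ℝ)) * v a ^ θ := by
    refine Finset.sum_le_sum_of_subset_of_nonneg ?_ ?_
    · intro a ha
      rw [Finset.mem_range] at ha ⊢
      nlinarith
    · intro a _ _
      exact mul_nonneg (by positivity) (Real.rpow_nonneg (hv a) _)
  have hmθ0 : 0 ≤ m ^ θ := Real.rpow_nonneg hm.le _
  calc ∑ a ∈ Finset.range L, (2 + ((a / n0 : ℕ) : ℝ)) * v a ^ θ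
      ≤ ∑ a ∈ Finset.range ((L + 1) * n0), (2 + ((a / n0 : ℕ) : ℝ)) * v a ^ θ := hle
    _ ≤ ∑ a ∈ Finset.range n0, (2 + ((a / n0 : ℕ) : ℝ)) * v a ^ θ +
        m ^ θ * ∑ i ∈ Finset.range L, (3 + (i : ℝ)) * ((n0 : ℝ) ^ (-(α * θ))) ^ i := hblocks L
    _ ≤ Z ^ θ * (24 * α + 2 ^ 23 * α ^ 2 * (1 + Real.log n0)) + m ^ θ * 4 :=
        add_le_add hfirst (mul_le_mul_of_nonneg_left hgeo' hmθ0)
    _ ≤ Z ^ θ * (24 * α + 2 ^ 23 * α ^ 2 * (1 + Real.log n0)) + Z ^ θ * (8 * α) * 4 := by linarith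
    _ ≤ Z ^ θ * (64 * α + 2 ^ 23 * α ^ 2 * (1 + Real.log n0)) := by
        have : 0 ≤ Z ^ θ * (8 * α) := by positivity
        linarith

theorem pf_VTH : T_VTH := by
  intro Vb m Z α θ s δ n0 hα hα1 _ hδ1 hθα hθ1 hs hs0 hZ hm hmZ hn hy H1 H2 H3 L
  have hfin : ∀ a, Vb a ≠ ∞ := by
    intro a
    rcases Nat.eq_zero_or_pos a with rfl | ha
    · exact ne_top_of_le_ne_top ENNReal.ofReal_ne_top H2
    · exact ne_top_of_le_ne_top ENNReal.ofReal_ne_top (H3 a ha)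
  have hof : ∀ a, Vb a = ENNReal.ofReal (Vb a).toReal := fun a =>
    (ENNReal.ofReal_toReal (hfin a)).symm
  have hn0 : (0 : ℝ) < n0 := by exact_mod_cast (by omega : 0 < n0)
  have hθ0 : 0 < θ := by
    have : α ≤ 1 / 2 := hα1.trans (by norm_num)
    linarith
  have h := core (fun a => (Vb a).toReal) (fun a => ENNReal.toReal_nonneg) hα hα1 hδ1 hθα hθ1 hs hs0
    hZ hm hmZ hn hy ?_ ?_ ?_ L
  · calc ∑ a ∈ Finset.range L, om (a / n0 + 1) * Vb a ^ θ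
        = ∑ a ∈ Finset.range L, ENNReal.ofReal ((2 + ((a / n0 : ℕ) : ℝ)) * (Vb a).toReal ^ θ) := by
          refine Finset.sum_congr rfl fun a _ => ?_
          rw [ENNReal.ofReal_mul (by positivity),
            ← ENNReal.ofReal_rpow_of_nonneg ENNReal.toReal_nonneg hθ0.le, ← hof a]
          congr 1
          have e1 : (2 : ℝ) + ((a / n0 : ℕ) : ℝ) = 1 + ((a / n0 + 1 : ℕ) : ℝ) := by
            push_cast; ring
          rw [e1, ENNReal.ofReal_add zero_le_one (Nat.cast_nonneg _), ENNReal.ofReal_one,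
            ENNReal.ofReal_natCast]
          rfl
      _ = ENNReal.ofReal (∑ a ∈ Finset.range L,
          (2 + ((a / n0 : ℕ) : ℝ)) * (Vb a).toReal ^ θ) := by
          rw [ENNReal.ofReal_sum_of_nonneg]
          intro a _
          exact mul_nonneg (by positivity) (Real.rpow_nonneg ENNReal.toReal_nonneg _)
      _ ≤ _ := ENNReal.ofReal_le_ofReal h
  · intro n
    have h1 := H1 n
    have h2 : ∑ a ∈ Finset.range n, Vb a * ENNReal.ofReal ((n0 : ℝ) ^ (α * a / n0)) =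
        ENNReal.ofReal (∑ a ∈ Finset.range n, (Vb a).toReal * (n0 : ℝ) ^ (α * a / n0)) := by
      rw [ENNReal.ofReal_sum_of_nonneg]
      · refine Finset.sum_congr rfl fun a _ => ?_
        rw [ENNReal.ofReal_mul ENNReal.toReal_nonneg, ← hof a]
      · intro a _
        exact mul_nonneg ENNReal.toReal_nonneg (Real.rpow_nonneg hn0.le _)
    rw [h2] at h1
    exact (ENNReal.ofReal_le_ofReal_iff hm.le).1 h1
  · exact ENNReal.toReal_le_of_le_ofReal (by positivity) H2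
  · intro a ha
    exact ENNReal.toReal_le_of_le_ofReal (by positivity) (H3 a ha)

end Pool.Agent.H49.CE
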